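import Mathlib

/-!
# Comparison of a log-concave tail with a shifted exponential tail (helper563)
-/

set_option autoImplicit false

open MeasureTheory Set

namespace Pool.Agent.N563.SE

/-- the tail of `W` copies of `a + σ X`, `X` standard exponential -/
noncomputable def tg (W σ a s : ℝ) : ℝ := W * min 1 (Real.exp (-((s - a) / σ)))

lemma tg_le {W σ a : ℝ} (hσ : 0 < σ) {s : ℝ} (hs : s ≤ a) : tg W σ a s = W := by
  unfold tg
  rw [min_eq_left, mul_one]
  apply Real.one_le_exp
  rw [neg_nonneg]
  exact div_nonpos_of_nonpos_of_nonneg (by linarith) hσ.le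

lemma tg_ge {W σ a : ℝ} (hσ : 0 < σ) {s : ℝ} (hs : a ≤ s) :
    tg W σ a s = W * Real.exp (-((s - a) / σ)) := by
  unfold tg
  rw [min_eq_right]
  apply Real.exp_le_one_iff.2
  rw [neg_nonpos]
  exact div_nonneg (by linarith) hσ.le

lemma tg_meas (W σ a : ℝ) : Continuous (tg W σ a) := by
  unfold tg
  fun_prop

/-- integrals of the exponential tail -/
lemma tg_int {W σ a : ℝ} (hσ : 0 < σ) (ha : 0 ≤ a) {g G : ℝ → ℝ} {L : ℝ}
    (hg : Continuous g) (hgn : ∀ s, 0 < s → 0 ≤ g s)
    (hG1 : ∫ s in (0 : ℝ)..a, g s = L)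
    (hG : ∀ s, HasDerivAt (fun s => Real.exp (-((s - a) / σ)) * G s)
      (Real.exp (-((s - a) / σ)) * g s) s)
    (hlim : Filter.Tendsto (fun s => Real.exp (-((s - a) / σ)) * G s) Filter.atTop (nhds 0)) :
    IntegrableOn (fun s => g s * tg W σ a s) (Ioi 0) ∧
    ∫ s in Ioi (0 : ℝ), g s * tg W σ a s = W * (L - G a) := by
  have h1 : IntegrableOn (fun s => Real.exp (-((s - a) / σ)) * g s) (Ioi a) := by
    refine integrableOn_Ioi_deriv_of_nonneg' (fun s _ => hG s) (fun s hs => ?_) hlim
    have : 0 ≤ g s := hgn s (lt_of_le_of_lt ha hs)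
    positivity
  have h2 : ∫ s in Ioi a, Real.exp (-((s - a) / σ)) * g s = 0 - Real.exp (-((a - a) / σ)) * G a :=
    integral_Ioi_of_hasDerivAt_of_tendsto' (fun s _ => hG s) h1 hlim
  have h3 : IntegrableOn (fun s => g s * tg W σ a s) (Ioi a) := by
    have h0 : IntegrableOn (fun s => W * (Real.exp (-((s - a) / σ)) * g s)) (Ioi a) :=
      h1.const_mul W
    refine h0.congr_fun (fun s hs => ?_) measurableSet_Ioi
    beta_reduce
    rw [tg_ge hσ (le_of_lt hs)]
    ring
  have h4 : ∫ s in Ioi a, g s * tg W σ a s = W * (-G a) := by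
    have : ∫ s in Ioi a, g s * tg W σ a s =
        ∫ s in Ioi a, W * (Real.exp (-((s - a) / σ)) * g s) := by
      refine setIntegral_congr_fun measurableSet_Ioi fun s hs => ?_
      rw [tg_ge hσ (le_of_lt hs)]
      ring
    rw [this, integral_const_mul, h2]
    simp
  have h5 : IntegrableOn (fun s => g s * tg W σ a s) (Ioc 0 a) :=
    ((hg.mul (tg_meas W σ a)).intervalIntegrable 0 a).1
  have h6 : ∫ s in Ioc 0 a, g s * tg W σ a s = W * L := by
    have : ∫ s in Ioc 0 a, g s * tg W σ a s = ∫ s in Ioc 0 a, W * g s := by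
      refine setIntegral_congr_fun measurableSet_Ioc fun s hs => ?_
      rw [tg_le hσ hs.2]
      ring
    rw [this, integral_const_mul, ← intervalIntegral.integral_of_le ha, hG1]
  have hun : Ioi (0 : ℝ) = Ioc 0 a ∪ Ioi a := (Ioc_union_Ioi_eq_Ioi ha).symm
  rw [hun]
  refine ⟨h5.union h3, ?_⟩
  rw [setIntegral_union (Ioc_disjoint_Ioi le_rfl) measurableSet_Ioi h5 h3, h6, h4]
  ring

lemma exp_lim {σ a : ℝ} (hσ : 0 < σ) :
    Filter.Tendsto (fun s => Real.exp (-((s - a) / σ))) Filter.atTop (nhds 0) := by
  apply Real.tendsto_exp_neg_atTop_nhds_zero.comp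
  apply Filter.Tendsto.atTop_div_const hσ
  exact Filter.tendsto_atTop_add_const_right _ _ Filter.tendsto_id

lemma exp_lim' {σ a : ℝ} (hσ : 0 < σ) :
    Filter.Tendsto (fun s => Real.exp (-((s - a) / σ)) * s) Filter.atTop (nhds 0) := by
  have h1 : Filter.Tendsto (fun s : ℝ => (s - a) / σ) Filter.atTop Filter.atTop := by
    apply Filter.Tendsto.atTop_div_const hσ
    exact Filter.tendsto_atTop_add_const_right _ _ Filter.tendsto_id
  have h2 := (Real.tendsto_pow_mul_exp_neg_atTop_nhds_zero 1).comp h1
  have h3 := (h2.const_mul σ).add ((exp_lim (a := a) hσ).const_mul a)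
  rw [mul_zero, mul_zero, add_zero] at h3
  refine h3.congr fun s => ?_
  simp only [Function.comp, pow_one]
  field_simp
  ring

lemma exp_der {σ a : ℝ} (s : ℝ) :
    HasDerivAt (fun s => Real.exp (-((s - a) / σ))) (Real.exp (-((s - a) / σ)) * (-(1 / σ))) s := by
  have h1 : HasDerivAt (fun s : ℝ => -((s - a) / σ)) (-(1 / σ)) s :=
    (((hasDerivAt_id s).sub_const a).div_const σ).neg
  exact h1.exp

lemma tg0 {W σ a : ℝ} (hσ : 0 < σ) (ha : 0 ≤ a) :
    IntegrableOn (fun s => (1 : ℝ) * tg W σ a s) (Ioi 0) ∧
    ∫ s in Ioi (0 : ℝ), (1 : ℝ) * tg W σ a s = W * (a + σ) := by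
  have h := tg_int (W := W) (g := fun _ => 1) (G := fun _ => -σ) (L := a) hσ ha continuous_const
    (fun _ _ => zero_le_one) (by simp) (fun s => by
      have h1 := (exp_der (σ := σ) (a := a) s).mul_const (-σ)
      refine h1.congr_deriv ?_
      field_simp) (by
      have := (exp_lim (a := a) hσ).mul_const (-σ)
      simpa using this)
  refine ⟨h.1, ?_⟩
  rw [h.2]
  ring

lemma tg1 {W σ a : ℝ} (hσ : 0 < σ) (ha : 0 ≤ a) :
    IntegrableOn (fun s => 2 * s * tg W σ a s) (Ioi 0) ∧
    ∫ s in Ioi (0 : ℝ), 2 * s * tg W σ a s = W * ((a + σ) ^ 2 + σ ^ 2) := by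
  have h := tg_int (W := W) (g := fun s => 2 * s) (G := fun s => -2 * σ * s - 2 * σ ^ 2) (L := a ^ 2)
    hσ ha (by fun_prop) (fun s hs => by positivity) (by
      rw [intervalIntegral.integral_const_mul, integral_id]
      ring) (fun s => by
      have h0 : HasDerivAt (fun s => -2 * σ * s - 2 * σ ^ 2) (-2 * σ) s := by
        have := ((hasDerivAt_id s).const_mul (-2 * σ)).sub_const (2 * σ ^ 2)
        simpa using this
      have h1 := (exp_der (σ := σ) (a := a) s).mul h0
      refine h1.congr_deriv ?_
      field_simp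
      ring) (by
      have h1 := (exp_lim' (a := a) hσ).const_mul (-2 * σ)
      have h2 := (exp_lim (a := a) hσ).const_mul (-(2 * σ ^ 2))
      have h3 := h1.add h2
      rw [mul_zero, mul_zero, add_zero] at h3
      refine h3.congr fun s => ?_
      ring)
  refine ⟨h.1, ?_⟩
  rw [h.2]
  ring

lemma tg2 {W σ a : ℝ} (hσ : 0 < σ) (ha : 0 ≤ a) :
    IntegrableOn (fun s => Real.exp (-s) * tg W σ a s) (Ioi 0) ∧
    ∫ s in Ioi (0 : ℝ), Real.exp (-s) * tg W σ a s = W * (1 - Real.exp (-a) / (1 + σ)) := by
  have h1σ : (0 : ℝ) < 1 + σ := by linarith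
  have h := tg_int (W := W) (g := fun s => Real.exp (-s)) (G := fun s => -(σ / (1 + σ)) * Real.exp (-s))
    (L := 1 - Real.exp (-a))
    hσ ha (by fun_prop) (fun s hs => by positivity) (by
      have h0 : ∀ x ∈ uIcc 0 a, HasDerivAt (fun s => -Real.exp (-s)) (Real.exp (-x)) x := by
        intro x _
        have := ((hasDerivAt_neg x).exp).fun_neg
        simpa using this
      rw [intervalIntegral.integral_eq_sub_of_hasDerivAt h0
        (Continuous.intervalIntegrable (by fun_prop) _ _)]
      simp
      ring) (fun s => by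
      have h0 : HasDerivAt (fun s => -(σ / (1 + σ)) * Real.exp (-s))
          (-(σ / (1 + σ)) * (-Real.exp (-s))) s := by
        have := ((hasDerivAt_neg s).exp).const_mul (-(σ / (1 + σ)))
        simpa using this
      have h1 := (exp_der (σ := σ) (a := a) s).mul h0
      refine h1.congr_deriv ?_
      field_simp) (by
      have h1 := (exp_lim (a := a) hσ).mul (Real.tendsto_exp_neg_atTop_nhds_zero)
      have h2 := h1.const_mul (-(σ / (1 + σ)))
      rw [mul_zero, mul_zero] at h2
      refine h2.congr fun s => ?_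
      ring)
  refine ⟨h.1, ?_⟩
  rw [h.2]
  field_simp
  ring

lemma cvx {x y a b : ℝ} (ha : 0 ≤ a) (hb : 0 ≤ b) (hab : a + b = 1) :
    Real.exp (-(a * x + b * y)) ≤ a * Real.exp (-x) + b * Real.exp (-y) := by
  have h := convexOn_exp.2 (mem_univ (-x)) (mem_univ (-y)) ha hb hab
  simp only [smul_eq_mul] at h
  have e : -(a * x + b * y) = a * -x + b * -y := by ring
  rw [e]
  exact h

/-- the chord of `exp(-s)` -/
lemma chord {b c s : ℝ} (hbc : b < c) :
    (b ≤ s → s ≤ c → Real.exp (-s) ≤
      Real.exp (-b) + (Real.exp (-c) - Real.exp (-b)) / (c - b) * (s - b)) ∧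
    (s ≤ b ∨ c ≤ s → Real.exp (-b) + (Real.exp (-c) - Real.exp (-b)) / (c - b) * (s - b) ≤
      Real.exp (-s)) := by
  have hd : 0 < c - b := by linarith
  constructor
  · intro h1 h2
    have h := cvx (x := b) (y := c) (a := (c - s) / (c - b)) (b := (s - b) / (c - b))
      (div_nonneg (by linarith) hd.le) (div_nonneg (by linarith) hd.le) (by field_simp; ring)
    have e : (c - s) / (c - b) * b + (s - b) / (c - b) * c = s := by field_simp; ring
    rw [e] at h
    refine h.trans (le_of_eq ?_)
    field_simp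
    ring
  · rintro (h1 | h1)
    · rcases eq_or_lt_of_le h1 with rfl | h1
      · simp
      · have hd2 : 0 < c - s := by linarith
        have h := cvx (x := s) (y := c) (a := (c - b) / (c - s)) (b := (b - s) / (c - s))
          (div_nonneg (by linarith) hd2.le) (div_nonneg (by linarith) hd2.le) (by field_simp; ring)
        have e : (c - b) / (c - s) * s + (b - s) / (c - s) * c = b := by field_simp; ring
        rw [e] at h
        have h2 : Real.exp (-b) * (c - s) ≤ (c - b) * Real.exp (-s) + (b - s) * Real.exp (-c) := by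
          have := mul_le_mul_of_nonneg_right h hd2.le
          refine this.trans (le_of_eq ?_)
          field_simp
        have h3 : (Real.exp (-b) + (Real.exp (-c) - Real.exp (-b)) / (c - b) * (s - b)) * (c - b) ≤
            Real.exp (-s) * (c - b) := by
          have e2 : (Real.exp (-b) + (Real.exp (-c) - Real.exp (-b)) / (c - b) * (s - b)) * (c - b)
              = Real.exp (-b) * (c - b) + (Real.exp (-c) - Real.exp (-b)) * (s - b) := by
            field_simp
          rw [e2]
          nlinarith
        exact le_of_mul_le_mul_right h3 hd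
    · rcases eq_or_lt_of_le h1 with rfl | h1
      · have e : Real.exp (-b) + (Real.exp (-c) - Real.exp (-b)) / (c - b) * (c - b) =
          Real.exp (-c) := by field_simp; ring
        exact e.le
      · have hd2 : 0 < s - b := by linarith
        have h := cvx (x := b) (y := s) (a := (s - c) / (s - b)) (b := (c - b) / (s - b))
          (div_nonneg (by linarith) hd2.le) (div_nonneg (by linarith) hd2.le) (by field_simp; ring)
        have e : (s - c) / (s - b) * b + (c - b) / (s - b) * s = c := by field_simp; ring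
        rw [e] at h
        have h2 : Real.exp (-c) * (s - b) ≤ (s - c) * Real.exp (-b) + (c - b) * Real.exp (-s) := by
          have := mul_le_mul_of_nonneg_right h hd2.le
          refine this.trans (le_of_eq ?_)
          field_simp
        have h3 : (Real.exp (-b) + (Real.exp (-c) - Real.exp (-b)) / (c - b) * (s - b)) * (c - b) ≤
            Real.exp (-s) * (c - b) := by
          have e2 : (Real.exp (-b) + (Real.exp (-c) - Real.exp (-b)) / (c - b) * (s - b)) * (c - b)
              = Real.exp (-b) * (c - b) + (Real.exp (-c) - Real.exp (-b)) * (s - b) := by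
            field_simp
          rw [e2]
          nlinarith
        exact le_of_mul_le_mul_right h3 hd

/-- the comparison -/
theorem cmpB {T : ℝ → ℝ} {W σ R : ℝ} (hW : 0 < W) (hσ : 0 < σ) (hσR : σ ≤ R)
    (hT0 : ∀ s, 0 ≤ T s) (hTm : Measurable T) (hTW : ∀ s, T s ≤ W)
    (M : ℝ) (hM : ∀ s, M ≤ s → T s = 0)
    (hlc : ∀ a b t, 0 < a → a < b → 0 < t → t < 1 →
      T a ^ (1 - t) * T b ^ t ≤ T ((1 - t) * a + t * b))
    (h1 : ∫ s in Ioi (0 : ℝ), T s = W * R)
    (h2 : ∫ s in Ioi (0 : ℝ), 2 * s * T s = W * (R ^ 2 + σ ^ 2)) :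
    ∫ s in Ioi (0 : ℝ), Real.exp (-s) * T s ≤ W * (1 - Real.exp (σ - R) / (1 + σ)) := by
  set a := R - σ with ha
  have ha0 : 0 ≤ a := by rw [ha]; linarith
  obtain ⟨i0, e0⟩ := tg0 (W := W) hσ ha0
  obtain ⟨i1, e1⟩ := tg1 (W := W) hσ ha0
  obtain ⟨i2, e2⟩ := tg2 (W := W) hσ ha0
  have hbd : ∀ g : ℝ → ℝ, Continuous g → IntegrableOn (fun s => g s * T s) (Ioi 0) := by
    intro g hg
    have h1 : IntegrableOn (fun s => g s * T s) (Icc 0 (max M 0)) := by
      obtain ⟨B, hB⟩ := (isCompact_Icc (a := (0 : ℝ)) (b := max M 0)).exists_bound_of_continuousOn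
        hg.continuousOn
      refine Measure.integrableOn_of_bounded (M := B * W) (by simp) ?_ ?_
      · exact (hg.measurable.mul hTm).aestronglyMeasurable
      · filter_upwards [ae_restrict_mem measurableSet_Icc] with s hs
        rw [norm_mul]
        have h2 := hB s hs
        have h3 : ‖T s‖ ≤ W := by
          rw [Real.norm_of_nonneg (hT0 s)]
          exact hTW s
        have h4 : 0 ≤ ‖g s‖ := norm_nonneg _
        have h5 : 0 ≤ ‖T s‖ := norm_nonneg _
        exact mul_le_mul h2 h3 h5 (h4.trans h2)
    have h2 : IntegrableOn (fun s => g s * T s) (Ioi (max M 0)) := by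
      refine (integrableOn_zero).congr_fun (fun s hs => ?_) measurableSet_Ioi
      rw [hM s ((le_max_left _ _).trans (le_of_lt hs)), mul_zero]
    refine (h1.union h2).mono_set fun s hs => ?_
    rcases le_or_gt s (max M 0) with h | h
    · exact Or.inl ⟨le_of_lt hs, h⟩
    · exact Or.inr h
  have j0 : IntegrableOn (fun s => 1 * T s) (Ioi 0) := hbd (fun _ => 1) (by fun_prop)
  have j1 : IntegrableOn (fun s => 2 * s * T s) (Ioi 0) := hbd (fun s => 2 * s) (by fun_prop)
  have j2 : IntegrableOn (fun s => Real.exp (-s) * T s) (Ioi 0) :=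
    hbd (fun s => Real.exp (-s)) (by fun_prop)
  -- the pointwise inequality
  obtain ⟨α, β, hαβ⟩ : ∃ α β : ℝ, ∀ s : ℝ, 0 < s →
      (Real.exp (-s) - α * 1 - β * (2 * s)) * (T s - tg W σ a s) ≤ 0 := by
    set P : Set ℝ := {s : ℝ | 0 < s ∧ tg W σ a s < T s} with hP
    have hPa : ∀ s ∈ P, a < s := by
      intro s hs
      by_contra hcon
      push Not at hcon
      have h3 := hs.2
      rw [tg_le hσ hcon] at h3
      exact absurd (hTW s) (not_le.2 h3)
    have hPc : ∀ s₁ ∈ P, ∀ s₃ ∈ P, ∀ s, s₁ < s → s < s₃ → s ∈ P := by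
      intro s₁ hs1 s₃ hs3 s h13 h3
      have ha1 := hPa s₁ hs1
      refine ⟨hs1.1.trans h13, ?_⟩
      set t := (s - s₁) / (s₃ - s₁) with ht
      have hd : 0 < s₃ - s₁ := by linarith
      have ht0 : 0 < t := div_pos (by linarith) hd
      have ht1 : t < 1 := by rw [ht, div_lt_one hd]; linarith
      have hs : (1 - t) * s₁ + t * s₃ = s := by
        rw [ht]; field_simp; ring
      have h4 := hlc s₁ s₃ t hs1.1 (by linarith) ht0 ht1
      rw [hs] at h4
      refine lt_of_lt_of_le ?_ h4
      have h5 := hs1.2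
      have h6 := hs3.2
      rw [tg_ge hσ ha1.le] at h5
      rw [tg_ge hσ (hPa s₃ hs3).le] at h6
      rw [tg_ge hσ (ha1.trans h13).le]
      have h7 : W * Real.exp (-((s - a) / σ)) = (W * Real.exp (-((s₁ - a) / σ))) ^ (1 - t) *
          (W * Real.exp (-((s₃ - a) / σ))) ^ t := by
        rw [Real.mul_rpow hW.le (Real.exp_pos _).le, Real.mul_rpow hW.le (Real.exp_pos _).le,
          ← Real.exp_mul, ← Real.exp_mul]
        have h8 : W ^ (1 - t) * W ^ t = W := by
          rw [← Real.rpow_add hW, sub_add_cancel, Real.rpow_one]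
        calc W * Real.exp (-((s - a) / σ)) = (W ^ (1 - t) * W ^ t) *
              (Real.exp (-((s₁ - a) / σ) * (1 - t)) * Real.exp (-((s₃ - a) / σ) * t)) := by
              rw [h8, ← Real.exp_add, ← hs]
              congr 2
              ring
          _ = _ := by ring
      rw [h7]
      apply mul_lt_mul'' (Real.rpow_lt_rpow (by positivity) h5 (by linarith))
        (Real.rpow_lt_rpow (by positivity) h6 ht0) (by positivity) (by positivity)
    have hPn : ∀ s, 0 < s → s ∉ P → T s - tg W σ a s ≤ 0 := by
      intro s hs hsP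
      by_contra hcon
      push Not at hcon
      exact hsP ⟨hs, by linarith⟩
    have hPp : ∀ s ∈ P, 0 < T s - tg W σ a s := fun s hs => by
      have := hs.2
      linarith
    rcases P.eq_empty_or_nonempty with hE | hne
    · refine ⟨0, 0, fun s hs => ?_⟩
      have h3 := hPn s hs (by rw [hE]; exact notMem_empty s)
      have h4 := Real.exp_pos (-s)
      nlinarith
    · have hbb : BddBelow P := ⟨0, fun s hs => hs.1.le⟩
      have hba : BddAbove P := by
        refine ⟨M, fun s hs => ?_⟩
        by_contra hcon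
        push Not at hcon
        have h3 := hs.2
        rw [hM s hcon.le, tg_ge hσ (hPa s hs).le] at h3
        have : 0 < W * Real.exp (-((s - a) / σ)) := by positivity
        linarith
      set b := sInf P with hb
      set c := sSup P with hc
      have hout1 : ∀ s, s < b → s ∉ P := fun s hs hsP => by
        have := csInf_le hbb hsP
        linarith
      have hout2 : ∀ s, c < s → s ∉ P := fun s hs hsP => by
        have := le_csSup hba hsP
        linarith
      have hin : ∀ s, b < s → s < c → s ∈ P := by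
        intro s h3 h4
        obtain ⟨s₁, hs1, h5⟩ := exists_lt_of_csInf_lt hne h3
        obtain ⟨s₃, hs3, h6⟩ := exists_lt_of_lt_csSup hne h4
        exact hPc s₁ hs1 s₃ hs3 s h5 h6
      have hbc : b ≤ c := by
        obtain ⟨s, hs⟩ := hne
        exact (csInf_le hbb hs).trans (le_csSup hba hs)
      rcases eq_or_lt_of_le hbc with hbc | hbc
      · refine ⟨Real.exp (-b) * (1 + b), -Real.exp (-b) / 2, fun s hs => ?_⟩
        rcases eq_or_ne s b with hsb | hsb
        · have : Real.exp (-s) - Real.exp (-b) * (1 + b) * 1 - -Real.exp (-b) / 2 * (2 * s) = 0 := by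
            rw [hsb]
            ring
          rw [this, zero_mul]
        · have h3 : s ∉ P := by
            rcases lt_or_gt_of_ne hsb with h | h
            · exact hout1 s h
            · exact hout2 s (by rw [← hbc]; exact h)
          have h4 := hPn s hs h3
          have h5 := Real.add_one_le_exp (b - s)
          have h6 : Real.exp (-s) = Real.exp (-b) * Real.exp (b - s) := by
            rw [← Real.exp_add]; congr 1; ring
          have h7 : 0 ≤ Real.exp (-s) - Real.exp (-b) * (1 + b) * 1 -
              -Real.exp (-b) / 2 * (2 * s) := by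
            rw [h6]
            have := mul_le_mul_of_nonneg_left h5 (Real.exp_pos (-b)).le
            nlinarith
          nlinarith
      · set m := (Real.exp (-c) - Real.exp (-b)) / (c - b) with hm
        refine ⟨Real.exp (-b) - m * b, m / 2, fun s hs => ?_⟩
        have e3 : Real.exp (-s) - (Real.exp (-b) - m * b) * 1 - m / 2 * (2 * s) =
            Real.exp (-s) - (Real.exp (-b) + m * (s - b)) := by ring
        rw [e3]
        obtain ⟨h3, h4⟩ := chord (s := s) hbc
        rw [← hm] at h3 h4
        rcases lt_trichotomy s b with h | h | h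
        · have h5 := hPn s hs (hout1 s h)
          have h6 := h4 (Or.inl h.le)
          nlinarith
        · rw [h]
          simp
        · rcases lt_trichotomy s c with h' | h' | h'
          · have h5 := hPp s (hin s h h')
            have h6 := h3 h.le h'.le
            nlinarith
          · have : Real.exp (-s) - (Real.exp (-b) + m * (s - b)) = 0 := by
              rw [h', hm]
              have : c - b ≠ 0 := by linarith
              field_simp
              ring
            rw [this, zero_mul]
          · have h5 := hPn s hs (hout2 s h')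
            have h6 := h4 (Or.inr h'.le)
            nlinarith
  have hae : ∀ᵐ s ∂(volume.restrict (Ioi (0 : ℝ))),
      (Real.exp (-s) - α * 1 - β * (2 * s)) * (T s - tg W σ a s) ≤ 0 := by
    filter_upwards [ae_restrict_mem measurableSet_Ioi] with s hs
    exact hαβ s hs
  have hint := integral_nonpos_of_ae (μ := volume.restrict (Ioi (0 : ℝ))) hae
  have hexp : ∀ s : ℝ, (Real.exp (-s) - α * 1 - β * (2 * s)) * (T s - tg W σ a s) =
      (Real.exp (-s) * T s - Real.exp (-s) * tg W σ a s) -
        (α * (1 * T s) - α * (1 * tg W σ a s)) -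
        (β * (2 * s * T s) - β * (2 * s * tg W σ a s)) := by
    intro s; ring
  simp_rw [hexp] at hint
  have k0 : IntegrableOn (fun s => α * (1 * T s) - α * (1 * tg W σ a s)) (Ioi 0) :=
    (j0.const_mul α).sub (i0.const_mul α)
  have k1 : IntegrableOn (fun s => β * (2 * s * T s) - β * (2 * s * tg W σ a s)) (Ioi 0) :=
    (j1.const_mul β).sub (i1.const_mul β)
  have k2 : IntegrableOn (fun s => Real.exp (-s) * T s - Real.exp (-s) * tg W σ a s) (Ioi 0) :=
    j2.sub i2
  have k3 : IntegrableOn (fun s => (Real.exp (-s) * T s - Real.exp (-s) * tg W σ a s) -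
        (α * (1 * T s) - α * (1 * tg W σ a s))) (Ioi 0) := k2.sub k0
  rw [integral_sub k3 k1, integral_sub k2 k0,
    integral_sub j2 i2, integral_sub (j0.const_mul α) (i0.const_mul α),
    integral_sub (j1.const_mul β) (i1.const_mul β)] at hint
  have e4 : ∫ s in Ioi (0 : ℝ), 1 * T s = W * R := by
    rw [← h1]
    simp
  have q1 : ∫ s in Ioi (0 : ℝ), α * (1 * T s) = α * (W * R) := by
    rw [integral_const_mul, e4]
  have q2 : ∫ s in Ioi (0 : ℝ), α * (1 * tg W σ a s) = α * (W * (a + σ)) := by
    rw [integral_const_mul, e0]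
  have q3 : ∫ s in Ioi (0 : ℝ), β * (2 * s * T s) = β * (W * (R ^ 2 + σ ^ 2)) := by
    rw [integral_const_mul, h2]
  have q4 : ∫ s in Ioi (0 : ℝ), β * (2 * s * tg W σ a s) = β * (W * ((a + σ) ^ 2 + σ ^ 2)) := by
    rw [integral_const_mul, e1]
  rw [q1, q2, q3, q4, e2] at hint
  have e5 : a + σ = R := by rw [ha]; ring
  have e6 : -a = σ - R := by rw [ha]; ring
  rw [e5, e6] at hint
  linarith

end Pool.Agent.N563.SE
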