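import Mathlib
import Pool.Agent.R476.LI.Gam

/-!
# A radial integral (helper563)
-/

set_option autoImplicit false

open MeasureTheory Set
open scoped ENNReal

namespace Pool.Agent.N563.SE

/-- the Gaussian tail `∫_r^∞ p s exp(-p s²/2) ds` -/
lemma gtail {p r : ℝ} (hp : 0 < p) (hr : 0 ≤ r) :
    ∫⁻ s in Ioi r, ENNReal.ofReal (p * s * Real.exp (-(p / 2 * s ^ 2))) =
      ENNReal.ofReal (Real.exp (-(p / 2 * r ^ 2))) := by
  have hd : ∀ s ∈ Ici r, HasDerivAt (fun s => -Real.exp (-(p / 2 * s ^ 2)))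
      (p * s * Real.exp (-(p / 2 * s ^ 2))) s := by
    intro s _
    have h1 : HasDerivAt (fun s : ℝ => -(p / 2 * s ^ 2)) (-(p * s)) s := by
      have h2 := ((hasDerivAt_pow 2 s).const_mul (p / 2)).fun_neg
      refine h2.congr_deriv ?_
      simp
      ring
    have h2 := h1.exp.fun_neg
    refine h2.congr_deriv ?_
    ring
  have hlim : Filter.Tendsto (fun s : ℝ => -Real.exp (-(p / 2 * s ^ 2))) Filter.atTop (nhds 0) := by
    have h1 : Filter.Tendsto (fun s : ℝ => p / 2 * s ^ 2) Filter.atTop Filter.atTop :=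
      Filter.Tendsto.const_mul_atTop (by positivity)
        (Filter.tendsto_pow_atTop (by norm_num))
    have h2 := (Real.tendsto_exp_neg_atTop_nhds_zero.comp h1).neg
    simpa using h2
  have hint : IntegrableOn (fun s => p * s * Real.exp (-(p / 2 * s ^ 2))) (Ioi r) :=
    integrableOn_Ioi_deriv_of_nonneg' hd (fun s hs => by
      have : 0 < s := lt_of_le_of_lt hr hs
      positivity) hlim
  rw [← ofReal_integral_eq_lintegral_ofReal hint, integral_Ioi_of_hasDerivAt_of_tendsto' hd hint hlim]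
  · simp
  · filter_upwards [ae_restrict_mem measurableSet_Ioi] with s hs
    have : 0 < s := lt_of_le_of_lt hr hs
    positivity

/-- the function `s exp(p s/2)` -/
noncomputable def psi (p s : ℝ) : ℝ := s * Real.exp (p * s / 2)

lemma psi_cont (p : ℝ) : Continuous (psi p) := by unfold psi; fun_prop

lemma psi_mono {p s t : ℝ} (hp : 0 < p) (hs : 0 ≤ s) (hst : s < t) : psi p s < psi p t := by
  unfold psi
  have h1 : Real.exp (p * s / 2) ≤ Real.exp (p * t / 2) := by
    apply Real.exp_le_exp.2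
    have := mul_lt_mul_of_pos_left hst hp
    linarith
  have h2 := Real.exp_pos (p * t / 2)
  calc s * Real.exp (p * s / 2) ≤ s * Real.exp (p * t / 2) := by gcongr
    _ < t * Real.exp (p * t / 2) := by gcongr

/-- the scalar function `exp(-r) (1 + p r)^(1/p)` -/
noncomputable def ff (p r : ℝ) : ℝ := Real.exp (-r) * (1 + p * r) ^ (1 / p)

lemma exp_sub_ge {σ : ℝ} (hσ : 0 ≤ σ) : 1 + σ * Real.exp (σ / 2) ≤ Real.exp σ := by
  have h1 := Real.self_le_sinh_iff.2 (show 0 ≤ σ / 2 by linarith)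
  rw [Real.sinh_eq] at h1
  have h2 : σ ≤ Real.exp (σ / 2) - Real.exp (-(σ / 2)) := by linarith
  have h3 := mul_le_mul_of_nonneg_right h2 (Real.exp_pos (σ / 2)).le
  have h4 : (Real.exp (σ / 2) - Real.exp (-(σ / 2))) * Real.exp (σ / 2) = Real.exp σ - 1 := by
    rw [sub_mul, ← Real.exp_add, ← Real.exp_add]
    have e1 : σ / 2 + σ / 2 = σ := by ring
    have e2 : -(σ / 2) + σ / 2 = 0 := by ring
    rw [e1, e2, Real.exp_zero]
  linarith

lemma sub_log_ge {u : ℝ} (hu : 0 ≤ u) : u ^ 2 / (2 * (1 + u)) ≤ u - Real.log (1 + u) := by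
  have h1u : (0 : ℝ) < 1 + u := by linarith
  -- log(1+u) ≤ (u + u/(1+u))/2·...: use the hyperbolic bound log x ≤ (x - 1/x)/2
  have h2 : Real.log (1 + u) ≤ ((1 + u) - (1 + u)⁻¹) / 2 := by
    have h3 := Real.self_le_sinh_iff.2 (Real.log_nonneg (show (1 : ℝ) ≤ 1 + u by linarith))
    rw [Real.sinh_eq, Real.exp_neg, Real.exp_log h1u] at h3
    exact h3
  have h4 : u - ((1 + u) - (1 + u)⁻¹) / 2 = u ^ 2 / (2 * (1 + u)) := by
    field_simp
    ring
  linarith

/-- the pointwise bound -/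
lemma ff_psi {p s : ℝ} (hp : 0 < p) (hs : 0 ≤ s) :
    ff p (psi p s) ≤ Real.exp (-(p / 2 * s ^ 2)) := by
  have hr : 0 ≤ psi p s := by unfold psi; positivity
  set r := psi p s with hrdef
  have h1 : 0 < 1 + p * r := by positivity
  unfold ff
  rw [Real.rpow_def_of_pos h1, ← Real.exp_add]
  apply Real.exp_le_exp.2
  have h2 := sub_log_ge (show 0 ≤ p * r by positivity)
  have h3 : (p * s) ^ 2 ≤ (p * r) ^ 2 / (1 + p * r) := by
    rw [le_div_iff₀ h1]
    have h4 := exp_sub_ge (show 0 ≤ p * s by positivity)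
    have h5 : (p * r) ^ 2 = (p * s) ^ 2 * Real.exp (p * s) := by
      rw [hrdef]
      unfold psi
      have : Real.exp (p * s) = Real.exp (p * s / 2) ^ 2 := by
        rw [← Real.exp_nat_mul]
        congr 1
        push_cast
        ring
      rw [this]
      ring
    rw [h5]
    apply mul_le_mul_of_nonneg_left _ (sq_nonneg _)
    have h6 : p * r = p * s * Real.exp (p * s / 2) := by
      rw [hrdef]; unfold psi; ring
    rw [h6]
    exact h4
  have h4 : (p * s) ^ 2 / 2 ≤ p * r - Real.log (1 + p * r) := by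
    have h5 : (p * r) ^ 2 / (2 * (1 + p * r)) = ((p * r) ^ 2 / (1 + p * r)) / 2 := by
      field_simp
    rw [h5] at h2
    linarith
  have h5 : Real.log (1 + p * r) * (1 / p) ≤ (p * r - (p * s) ^ 2 / 2) * (1 / p) := by
    apply mul_le_mul_of_nonneg_right _ (by positivity)
    linarith
  have h6 : (p * r - (p * s) ^ 2 / 2) * (1 / p) = r - p / 2 * s ^ 2 := by
    field_simp
  rw [h6] at h5
  linarith

/-- layer cake bound -/
lemma ff_le {p r : ℝ} (hp : 0 < p) (hr : 0 ≤ r) :
    ENNReal.ofReal (ff p r) ≤ ∫⁻ s in Ioi (0 : ℝ), {s : ℝ | r < psi p s}.indicator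
      (fun s => ENNReal.ofReal (p * s * Real.exp (-(p / 2 * s ^ 2)))) s := by
  obtain ⟨s0, hs0, hrs⟩ : r ∈ psi p '' Icc 0 r := by
    apply intermediate_value_Icc hr (psi_cont p).continuousOn
    constructor
    · unfold psi; simp [hr]
    · unfold psi
      have : 1 ≤ Real.exp (p * r / 2) := Real.one_le_exp (by positivity)
      nlinarith
  calc ENNReal.ofReal (ff p r) ≤ ENNReal.ofReal (Real.exp (-(p / 2 * s0 ^ 2))) := by
        apply ENNReal.ofReal_le_ofReal
        rw [← hrs]
        exact ff_psi hp hs0.1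
    _ = ∫⁻ s in Ioi s0, ENNReal.ofReal (p * s * Real.exp (-(p / 2 * s ^ 2))) :=
        (gtail hp hs0.1).symm
    _ = ∫⁻ s in Ioi s0, {s : ℝ | r < psi p s}.indicator
      (fun s => ENNReal.ofReal (p * s * Real.exp (-(p / 2 * s ^ 2)))) s := by
        refine setLIntegral_congr_fun measurableSet_Ioi fun s hs => ?_
        rw [indicator_of_mem]
        rw [← hrs]
        exact psi_mono hp hs0.1 hs
    _ ≤ _ := lintegral_mono_set (Ioi_subset_Ioi hs0.1)

variable {V : Type*} [NormedAddCommGroup V] [InnerProductSpace ℝ V] [FiniteDimensional ℝ V]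
  [MeasurableSpace V] [BorelSpace V]

open Module

/-- Tonelli -/
lemma ton {ψ : ℝ → ℝ} (hψ : Continuous ψ) (hψ0 : ∀ s, 0 < s → 0 < ψ s) {h : ℝ → ℝ≥0∞}
    (hh : Measurable h) :
    ∫⁻ u : V, ∫⁻ s in Ioi (0 : ℝ), {s : ℝ | ‖u‖ < ψ s}.indicator h s =
      ∫⁻ s in Ioi (0 : ℝ), h s * (ENNReal.ofReal (ψ s ^ finrank ℝ V) *
        volume (Metric.ball (0 : V) 1)) := by
  have hm : Measurable fun q : V × ℝ => {s : ℝ | ‖q.1‖ < ψ s}.indicator h q.2 := by
    have e : (fun q : V × ℝ => {s : ℝ | ‖q.1‖ < ψ s}.indicator h q.2) =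
        {q : V × ℝ | ‖q.1‖ < ψ q.2}.indicator (fun q => h q.2) := by
      ext q
      by_cases hq : ‖q.1‖ < ψ q.2
      · rw [indicator_of_mem (show q.2 ∈ {s : ℝ | ‖q.1‖ < ψ s} from hq),
          indicator_of_mem (show q ∈ {q : V × ℝ | ‖q.1‖ < ψ q.2} from hq)]
      · rw [indicator_of_notMem (show q.2 ∉ {s : ℝ | ‖q.1‖ < ψ s} from hq),
          indicator_of_notMem (show q ∉ {q : V × ℝ | ‖q.1‖ < ψ q.2} from hq)]
    rw [e]
    exact (hh.comp measurable_snd).indicator (measurableSet_lt (by fun_prop) (by fun_prop))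
  rw [lintegral_lintegral_swap hm.aemeasurable]
  refine setLIntegral_congr_fun measurableSet_Ioi fun s hs => ?_
  have e : ∀ u : V, {s : ℝ | ‖u‖ < ψ s}.indicator h s =
      (Metric.ball (0 : V) (ψ s)).indicator (fun _ => h s) u := by
    intro u
    by_cases hq : ‖u‖ < ψ s
    · rw [indicator_of_mem (show s ∈ {s : ℝ | ‖u‖ < ψ s} from hq),
        indicator_of_mem (show u ∈ Metric.ball (0 : V) (ψ s) by simpa using hq)]
    · rw [indicator_of_notMem (show s ∉ {s : ℝ | ‖u‖ < ψ s} from hq),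
        indicator_of_notMem (show u ∉ Metric.ball (0 : V) (ψ s) by simpa using hq)]
  beta_reduce
  simp_rw [e]
  rw [lintegral_indicator Metric.isOpen_ball.measurableSet, setLIntegral_const,
    Measure.addHaar_ball_of_pos _ _ (hψ0 s hs)]

/-- the Gaussian integral in polar coordinates -/
lemma gauss_polar {p : ℝ} (hp : 0 < p) :
    ∫⁻ s in Ioi (0 : ℝ), ENNReal.ofReal (p * s * Real.exp (-(p / 2 * s ^ 2))) *
      (ENNReal.ofReal (s ^ finrank ℝ V) * volume (Metric.ball (0 : V) 1)) =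
      ENNReal.ofReal ((2 * Real.pi / p) ^ ((finrank ℝ V : ℝ) / 2)) := by
  have h1 := ton (V := V) (ψ := fun s => s) continuous_id (fun s hs => hs)
    (h := fun s => ENNReal.ofReal (p * s * Real.exp (-(p / 2 * s ^ 2)))) (by fun_prop)
  rw [← h1]
  have h2 := Pool.Agent.R476.LI.lint_gauss (V := V) (b := p / 2) (by positivity)
  have h3 : Real.pi / (p / 2) = 2 * Real.pi / p := by field_simp
  rw [h3] at h2
  rw [← h2]
  refine lintegral_congr fun u => ?_
  rw [neg_mul, ← gtail hp (norm_nonneg u)]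
  have hm : MeasurableSet {s : ℝ | ‖u‖ < s} := measurableSet_Ioi
  rw [lintegral_indicator hm, Measure.restrict_restrict hm]
  congr 2
  ext s
  simp only [mem_inter_iff, mem_ofPred_eq, mem_Ioi]
  constructor
  · exact fun h => h.1
  · exact fun h => ⟨h, lt_of_le_of_lt (norm_nonneg u) h⟩

lemma inv_le_exp {x : ℝ} (hx : 0 ≤ x) (hx2 : x ≤ 1 / 2) : 1 / (1 - x) ≤ Real.exp (3 / 2 * x) := by
  have h1 := Real.quadratic_le_exp_of_nonneg (show 0 ≤ 3 / 2 * x by positivity)
  have h2 : 0 < 1 - x := by linarith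
  refine le_trans ?_ h1
  rw [div_le_iff₀ h2]
  nlinarith [mul_nonneg hx hx, mul_nonneg (mul_nonneg hx hx) hx, mul_nonneg hx (sub_nonneg.2 hx2),
    mul_nonneg (mul_nonneg hx hx) (sub_nonneg.2 hx2)]

/-- **the radial bound** -/
theorem rad {p : ℝ} (hp : 0 < p) (hpn : p * (finrank ℝ V : ℝ) ^ 2 ≤ finrank ℝ V + 2) :
    ∫⁻ u : V, ENNReal.ofReal (ff p ‖u‖) ≤
      ENNReal.ofReal ((2 * Real.pi / p) ^ ((finrank ℝ V : ℝ) / 2) *
        Real.exp (5 / 8 * finrank ℝ V * Real.sqrt (p * (finrank ℝ V + 2)))) := by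
  set d := finrank ℝ V with hd
  have hpi := Real.pi_pos
  have hd0 : (0 : ℝ) ≤ d := by positivity
  have hd2 : (0 : ℝ) < (d : ℝ) + 2 := by positivity
  set c := Real.sqrt (p / (d + 2)) with hc
  have hc0 : 0 < c := Real.sqrt_pos.2 (by positivity)
  have hc2 : c ^ 2 = p / (d + 2) := Real.sq_sqrt (by positivity)
  set Q := Real.sqrt (p * (d + 2)) with hQ
  have hQc : Q = c * (d + 2) := by
    rw [hQ, hc, Real.sqrt_eq_iff_mul_self_eq (by positivity) (by positivity)]
    rw [← sq, mul_pow, Real.sq_sqrt (by positivity)]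
    field_simp
  have hpc : p = c * Q := by
    rw [hQc, ← mul_assoc, ← sq, hc2]
    field_simp
  have hQ0 : 0 < Q := Real.sqrt_pos.2 (by positivity)
  set x := (d : ℝ) / 2 * c with hx
  have hx0 : 0 ≤ x := by positivity
  have hx2 : x ≤ 1 / 2 := by
    have h1 : (d * c) ^ 2 ≤ 1 ^ 2 := by
      rw [mul_pow, hc2, ← mul_div_assoc, div_le_iff₀ hd2]
      linarith
    have h2 := (pow_le_pow_iff_left₀ (by positivity) zero_le_one (by norm_num)).1 h1
    rw [hx]
    linarith
  have h1x : 0 < 1 - x := by linarith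
  set p' := p * (1 - x) with hp'
  have hp'0 : 0 < p' := by positivity
  calc ∫⁻ u : V, ENNReal.ofReal (ff p ‖u‖)
      ≤ ∫⁻ u : V, ∫⁻ s in Ioi (0 : ℝ), {s : ℝ | ‖u‖ < psi p s}.indicator
        (fun s => ENNReal.ofReal (p * s * Real.exp (-(p / 2 * s ^ 2)))) s := by
        gcongr with u
        exact ff_le hp (norm_nonneg u)
    _ = ∫⁻ s in Ioi (0 : ℝ), ENNReal.ofReal (p * s * Real.exp (-(p / 2 * s ^ 2))) *
        (ENNReal.ofReal (psi p s ^ d) * volume (Metric.ball (0 : V) 1)) :=
        ton (psi_cont p) (fun s hs => by unfold psi; positivity) (by fun_prop)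
    _ ≤ ∫⁻ s in Ioi (0 : ℝ), ENNReal.ofReal (Real.exp (d / 4 * Q) / (1 - x)) *
        (ENNReal.ofReal (p' * s * Real.exp (-(p' / 2 * s ^ 2))) *
        (ENNReal.ofReal (s ^ d) * volume (Metric.ball (0 : V) 1))) := by
        apply setLIntegral_mono' measurableSet_Ioi
        intro s hs
        have hs0 : (0 : ℝ) < s := hs
        rw [← mul_assoc, ← mul_assoc, ← mul_assoc]
        gcongr ?_ * _
        rw [← ENNReal.ofReal_mul (by positivity), ← ENNReal.ofReal_mul (by positivity),
          ← ENNReal.ofReal_mul (by positivity)]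
        apply ENNReal.ofReal_le_ofReal
        have e1 : psi p s ^ d = s ^ d * Real.exp (d * (p * s / 2)) := by
          unfold psi
          rw [mul_pow, ← Real.exp_nat_mul]
        have e2 : p * s * Real.exp (-(p / 2 * s ^ 2)) * psi p s ^ d =
            p * s * s ^ d * Real.exp (-(p / 2 * s ^ 2) + d * (p * s / 2)) := by
          rw [e1, Real.exp_add]
          ring
        have e3 : Real.exp (d / 4 * Q) / (1 - x) * (p' * s * Real.exp (-(p' / 2 * s ^ 2))) * s ^ d =
            p * s * s ^ d * Real.exp (d / 4 * Q + -(p' / 2 * s ^ 2)) := by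
          rw [hp', Real.exp_add]
          field_simp
        rw [e2, e3]
        apply mul_le_mul_of_nonneg_left _ (by positivity)
        apply Real.exp_le_exp.2
        -- the exponent
        have h1 : 0 ≤ (c * s - 1) ^ 2 := sq_nonneg _
        have h2 : d * (p * s / 2) ≤ d / 4 * Q + p / 2 * x * s ^ 2 := by
          have h3 : d / 4 * Q + p / 2 * x * s ^ 2 - d * (p * s / 2) =
              d / 4 * Q * (c * s - 1) ^ 2 := by
            rw [hx]
            nth_rewrite 1 [hpc]
            nth_rewrite 1 [hpc]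
            ring
          have h4 : 0 ≤ d / 4 * Q * (c * s - 1) ^ 2 := by positivity
          linarith
        have h5 : p' / 2 * s ^ 2 = p / 2 * s ^ 2 - p / 2 * x * s ^ 2 := by
          rw [hp']; ring
        rw [h5]
        linarith
    _ = ENNReal.ofReal (Real.exp (d / 4 * Q) / (1 - x)) *
        ENNReal.ofReal ((2 * Real.pi / p') ^ ((d : ℝ) / 2)) := by
        rw [lintegral_const_mul' _ _ ENNReal.ofReal_ne_top, gauss_polar hp'0]
    _ ≤ _ := by
        rw [← ENNReal.ofReal_mul (by positivity)]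
        apply ENNReal.ofReal_le_ofReal
        have e1 : 2 * Real.pi / p' = 2 * Real.pi / p * (1 / (1 - x)) := by
          rw [hp']; field_simp
        rw [e1, Real.mul_rpow (by positivity) (by positivity)]
        have h1 := inv_le_exp hx0 hx2
        have h2 : (1 / (1 - x)) ^ ((d : ℝ) / 2) ≤ Real.exp (3 / 2 * x) ^ ((d : ℝ) / 2) :=
          Real.rpow_le_rpow (by positivity) h1 (by positivity)
        rw [← Real.exp_mul] at h2
        calc Real.exp (d / 4 * Q) / (1 - x) *
              ((2 * Real.pi / p) ^ ((d : ℝ) / 2) * (1 / (1 - x)) ^ ((d : ℝ) / 2))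
            = (2 * Real.pi / p) ^ ((d : ℝ) / 2) * (Real.exp (d / 4 * Q) * (1 / (1 - x)) *
              (1 / (1 - x)) ^ ((d : ℝ) / 2)) := by ring
          _ ≤ (2 * Real.pi / p) ^ ((d : ℝ) / 2) * (Real.exp (d / 4 * Q) * Real.exp (3 / 2 * x) *
              Real.exp (3 / 2 * x * (d / 2))) := by gcongr
          _ = _ := by
              rw [← Real.exp_add, ← Real.exp_add]
              congr 2
              have : x * (d + 2) = d / 2 * Q := by rw [hx, hQc]; ring
              linear_combination (3 / 4 : ℝ) * this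

end Pool.Agent.N563.SE
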