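import Mathlib
import Pool.Agent.R476.LI.Cmp
import Pool.Agent.H212R2.KLS.T1
import Pool.Agent.N563.SE.CmpB

/-!
# Laplace transforms of marginals of convex bodies (helper563)
-/

set_option autoImplicit false

open MeasureTheory Set

namespace Pool.Agent.N563.SE

set_option linter.unusedSectionVars false

variable {V : Type*} [NormedAddCommGroup V] [NormedSpace ℝ V] [FiniteDimensional ℝ V]
  [MeasurableSpace V] [BorelSpace V] {μ : Measure V} [μ.IsAddHaarMeasure]

/-- convex bodies -/
structure Body (C : Set V) : Prop where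
  cpt : IsCompact C
  conv : Convex ℝ C
  int : (interior C).Nonempty

namespace Body

variable {C : Set V}

lemma meas (hC : Body C) : MeasurableSet C := hC.cpt.measurableSet

lemma vol_ne_top (hC : Body C) : μ C ≠ ⊤ := hC.cpt.measure_lt_top.ne

lemma vol_ne (hC : Body C) : μ C ≠ 0 :=
  (Measure.measure_pos_of_nonempty_interior μ hC.int).ne'

lemma W_pos (hC : Body C) : 0 < μ.real C :=
  ENNReal.toReal_pos hC.vol_ne hC.vol_ne_top

lemma fin (hC : Body C) : IsFiniteMeasure (μ.restrict C) := ⟨by
  rw [Measure.restrict_apply_univ]; exact hC.cpt.measure_lt_top⟩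

lemma int_on (hC : Body C) {f : V → ℝ} (hf : Continuous f) : IntegrableOn f C μ :=
  hf.continuousOn.integrableOn_compact hC.cpt

/-- the part beyond a hyperplane -/
def cap (C : Set V) (l : V →L[ℝ] ℝ) (s : ℝ) : Set V := C ∩ {x | s < l x}

lemma cap_meas (hC : Body C) (l : V →L[ℝ] ℝ) (s : ℝ) : MeasurableSet (cap C l s) := by
  refine hC.meas.inter (measurableSet_lt measurable_const ?_)
  fun_prop

lemma cap_fin (hC : Body C) (l : V →L[ℝ] ℝ) (s : ℝ) : μ (cap C l s) ≠ ⊤ :=
  ((measure_mono inter_subset_left).trans_lt hC.cpt.measure_lt_top).ne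

/-- log-concavity -/
lemma cap_logconc (hC : Body C) (l : V →L[ℝ] ℝ) {a b t : ℝ} (ht0 : 0 < t) (ht1 : t < 1) :
    μ.real (cap C l a) ^ (1 - t) * μ.real (cap C l b) ^ t ≤
      μ.real (cap C l ((1 - t) * a + t * b)) := by
  have h := Pool.Agent.H212R2.KLS.PL μ t ht0 ht1
    ((cap C l a).indicator 1) ((cap C l b).indicator 1)
    ((cap C l ((1 - t) * a + t * b)).indicator 1)
    (measurable_one.indicator (hC.cap_meas l a)) (measurable_one.indicator (hC.cap_meas l b))
    (measurable_one.indicator (hC.cap_meas l _)) ?_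
  · rw [lintegral_indicator_one (hC.cap_meas l a), lintegral_indicator_one (hC.cap_meas l b),
      lintegral_indicator_one (hC.cap_meas l _)] at h
    have h2 := ENNReal.toReal_mono (hC.cap_fin l _) h
    rw [ENNReal.toReal_mul, ← ENNReal.toReal_rpow, ← ENNReal.toReal_rpow] at h2
    exact h2
  · intro u v
    by_cases hu : u ∈ cap C l a
    · by_cases hv : v ∈ cap C l b
      · have hw : (1 - t) • u + t • v ∈ cap C l ((1 - t) * a + t * b) := by
          refine ⟨hC.conv hu.1 hv.1 (by linarith) ht0.le (by ring), ?_⟩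
          have h1 : a < l u := hu.2
          have h2 : b < l v := hv.2
          simp only [mem_ofPred_eq, map_add, map_smul, smul_eq_mul]
          have h3 : t * b < t * l v := mul_lt_mul_of_pos_left h2 ht0
          have h4 : (1 - t) * a < (1 - t) * l u := mul_lt_mul_of_pos_left h1 (by linarith)
          linarith
        rw [indicator_of_mem hu, indicator_of_mem hv, indicator_of_mem hw]
        simp
      · rw [indicator_of_notMem hv, ENNReal.zero_rpow_of_pos ht0, mul_zero]
        exact bot_le
    · rw [indicator_of_notMem hu, ENNReal.zero_rpow_of_pos (by linarith), zero_mul]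
      exact bot_le

/-- the tail of a nonnegative function -/
noncomputable def tl (μ : Measure V) (C : Set V) (f : V → ℝ) (s : ℝ) : ℝ :=
  (μ.restrict C).real {x | s < f x}

lemma tl_anti (hC : Body C) (f : V → ℝ) : Antitone (tl μ C f) := by
  intro s t hst
  unfold tl
  have := hC.fin (μ := μ)
  apply measureReal_mono
  · intro x hx
    exact lt_of_le_of_lt hst hx
  · exact (measure_lt_top _ _).ne

lemma tl_nonneg (f : V → ℝ) (s : ℝ) : 0 ≤ tl μ C f s := measureReal_nonneg

lemma tl_le (hC : Body C) (f : V → ℝ) (s : ℝ) : tl μ C f s ≤ μ.real C := by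
  unfold tl
  have := hC.fin (μ := μ)
  have h1 := measureReal_mono (μ := μ.restrict C) (subset_univ {x : V | s < f x})
  refine h1.trans (le_of_eq ?_)
  rw [Measure.real, Measure.restrict_apply_univ, Measure.real]

lemma tl_zero {f : V → ℝ} (hf : Continuous f) {s R : ℝ} (hR : ∀ x ∈ C, f x ≤ R) (hs : R ≤ s) :
    tl μ C f s = 0 := by
  unfold tl
  have hm : MeasurableSet {x : V | s < f x} := measurableSet_lt measurable_const (by fun_prop)
  rw [measureReal_restrict_apply hm]
  have : {x : V | s < f x} ∩ C = ∅ := by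
    ext x
    simp only [mem_inter_iff, mem_ofPred_eq, mem_empty_iff_false, iff_false, not_and]
    intro h1 h2
    have h3 := hR x h2
    linarith
  rw [this]
  simp

/-- layer cake -/
lemma layer (hC : Body C) {f : V → ℝ} (hf : Continuous f) (hf0 : ∀ x ∈ C, 0 ≤ f x)
    {g G : ℝ → ℝ} (hg : Continuous g)
    (hg0 : ∀ t > 0, 0 ≤ g t) (hG : ∀ r, 0 ≤ r → G r = ∫ s in (0 : ℝ)..r, g s)
    (hGc : Continuous G) :
    ∫ x in C, G (f x) ∂μ = ∫ s in Ioi (0 : ℝ), g s * tl μ C f s := by
  have hGn : ∀ r, 0 ≤ r → 0 ≤ G r := by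
    intro r hr
    rw [hG r hr]
    apply intervalIntegral.integral_nonneg_of_ae_restrict hr
    have h1 : ∀ᵐ s ∂(volume.restrict (Icc 0 r)), s ≠ 0 := by
      apply ae_restrict_of_ae
      have : ∀ᵐ s ∂(volume : Measure ℝ), s ∉ ({0} : Set ℝ) :=
        measure_eq_zero_iff_ae_notMem.1 (by simp)
      filter_upwards [this] with s hs
      simpa using hs
    filter_upwards [ae_restrict_mem measurableSet_Icc, h1] with s hs hs0
    exact hg0 s (lt_of_le_of_ne hs.1 (Ne.symm hs0))
  have hae : ∀ᵐ x ∂(μ.restrict C), 0 ≤ f x := by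
    filter_upwards [ae_restrict_mem hC.meas] with x hx
    exact hf0 x hx
  have h1 := lintegral_comp_eq_lintegral_meas_lt_mul (μ.restrict C)
    (f := f) (g := g) hae (by fun_prop)
    (fun t _ => hg.intervalIntegrable _ _)
    (by
      filter_upwards [ae_restrict_mem measurableSet_Ioi] with t ht
      exact hg0 t ht)
  rw [integral_eq_lintegral_of_nonneg_ae
    (by filter_upwards [hae] with x hx; exact hGn _ hx) (by fun_prop)]
  have h2 : ∫⁻ x in C, ENNReal.ofReal (∫ t in (0 : ℝ)..f x, g t) ∂μ =
      ∫⁻ x in C, ENNReal.ofReal (G (f x)) ∂μ := by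
    refine lintegral_congr_ae ?_
    filter_upwards [hae] with x hx
    rw [hG _ hx]
  rw [h2] at h1
  rw [h1]
  have hanti := hC.tl_anti (μ := μ) f
  have hfin := hC.fin (μ := μ)
  have htn : ∀ s, 0 ≤ tl μ C f s := fun s => measureReal_nonneg
  rw [integral_eq_lintegral_of_nonneg_ae]
  · congr 1
    refine setLIntegral_congr_fun measurableSet_Ioi fun s hs => ?_
    rw [ENNReal.ofReal_mul (hg0 s hs), mul_comm]
    congr 1
    unfold tl
    rw [ofReal_measureReal (measure_ne_top _ _)]
  · filter_upwards [ae_restrict_mem measurableSet_Ioi] with s hs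
    exact mul_nonneg (hg0 s hs) (htn s)
  · exact (hg.measurable.mul hanti.measurable).aestronglyMeasurable

/-- a nonzero functional has positive second moment -/
lemma sq_pos (hC : Body C) {l : V →L[ℝ] ℝ} (hl : l ≠ 0) (c : ℝ) :
    0 < ∫ x in C, (l x - c) ^ 2 ∂μ := by
  rw [setIntegral_pos_iff_support_of_nonneg_ae (Filter.Eventually.of_forall fun x => sq_nonneg _)
    (hC.int_on (by fun_prop))]
  have hopen : IsOpen (interior C ∩ {x | l x ≠ c}) :=
    isOpen_interior.inter (isOpen_ne_fun (by fun_prop) continuous_const)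
  have hne : (interior C ∩ {x | l x ≠ c}).Nonempty := by
    obtain ⟨x, hx⟩ := hC.int
    by_cases h : l x = c
    · obtain ⟨v, hv⟩ : ∃ v, l v ≠ 0 := by
        by_contra hcon
        push Not at hcon
        exact hl (ContinuousLinearMap.ext hcon)
      have hlim : Filter.Tendsto (fun t : ℝ => x + t • v) (nhdsWithin 0 {0}ᶜ) (nhds x) := by
        have : Filter.Tendsto (fun t : ℝ => x + t • v) (nhds 0) (nhds (x + (0 : ℝ) • v)) :=
          (Continuous.tendsto (by fun_prop) 0)
        rw [zero_smul, add_zero] at this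
        exact this.mono_left nhdsWithin_le_nhds
      have h2 := hlim.eventually (isOpen_interior.mem_nhds hx)
      obtain ⟨t, ht1, ht2⟩ := (h2.and self_mem_nhdsWithin).exists
      refine ⟨x + t • v, ht1, ?_⟩
      simp only [mem_ofPred_eq, map_add, map_smul, smul_eq_mul, h]
      have : t * l v ≠ 0 := mul_ne_zero (by simpa using ht2) hv
      intro h3
      apply this
      linarith
    · exact ⟨x, hx, h⟩
  have hpos : 0 < μ (interior C ∩ {x | l x ≠ c}) := hopen.measure_pos μ hne
  refine hpos.trans_le (measure_mono ?_)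
  rintro x ⟨h1, h2⟩
  refine ⟨?_, interior_subset h1⟩
  simp only [Function.mem_support]
  have : l x - c ≠ 0 := sub_ne_zero.2 h2
  positivity

/-- **Lemma B**: Laplace transforms of centred bodies -/
theorem exp_ge (hC : Body C) (l : V →L[ℝ] ℝ) (h0 : ∫ x in C, l x ∂μ = 0) {σ : ℝ} (hσ : 0 ≤ σ)
    (hσ2 : ∫ x in C, (l x) ^ 2 ∂μ = μ.real C * σ ^ 2) :
    μ.real C * (Real.exp σ / (1 + σ)) ≤ ∫ x in C, Real.exp (l x) ∂μ := by
  have hW := hC.W_pos (μ := μ)
  rcases eq_or_lt_of_le hσ with rfl | hσp
  · have hl : l = 0 := by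
      by_contra hl
      have h1 := hC.sq_pos (μ := μ) hl 0
      simp only [sub_zero] at h1
      rw [hσ2] at h1
      simp at h1
    rw [hl]
    simp
  -- the radius
  obtain ⟨R, hR⟩ := hC.cpt.exists_bound_of_continuousOn (f := fun x : V => l x) (by fun_prop)
  have hR' : ∀ x ∈ C, |l x| ≤ R := fun x hx => by
    have := hR x hx
    rwa [Real.norm_eq_abs] at this
  have hR0 : 0 ≤ R := by
    obtain ⟨x, hx⟩ := hC.int
    exact (abs_nonneg _).trans (hR' x (interior_subset hx))
  have hσR : σ ≤ R := by
    have h1 : ∫ x in C, (l x) ^ 2 ∂μ ≤ ∫ _x in C, R ^ 2 ∂μ := by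
      apply setIntegral_mono_on (hC.int_on (by fun_prop)) (hC.int_on continuous_const) hC.meas
      intro x hx
      exact sq_le_sq' (by linarith [(abs_le.1 (hR' x hx)).1]) (abs_le.1 (hR' x hx)).2
    rw [hσ2, setIntegral_const, smul_eq_mul] at h1
    exact (pow_le_pow_iff_left₀ hσ hR0 (by norm_num)).1 (le_of_mul_le_mul_left h1 hW)
  -- the function
  let f : V → ℝ := fun x => -l x + R
  have hfc : Continuous f := by fun_prop
  have hf0 : ∀ x ∈ C, 0 ≤ f x := fun x hx => by
    have := (abs_le.1 (hR' x hx)).2
    simp only [f]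
    linarith
  have hf2 : ∀ x ∈ C, f x ≤ 2 * R := fun x hx => by
    have := (abs_le.1 (hR' x hx)).1
    simp only [f]
    linarith
  have htl : ∀ s, tl μ C f s = μ.real (cap C (-l) (s - R)) := by
    intro s
    unfold tl
    have hm : MeasurableSet {x : V | s < f x} := measurableSet_lt measurable_const (by fun_prop)
    rw [measureReal_restrict_apply hm]
    congr 1
    ext x
    simp only [cap, f, mem_inter_iff, mem_ofPred_eq, neg_apply]
    constructor
    · rintro ⟨h1, h2⟩
      exact ⟨h2, by linarith⟩
    · rintro ⟨h1, h2⟩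
      exact ⟨by linarith, h1⟩
  have e0 := hC.layer (μ := μ) hfc hf0 (g := fun _ => 1) (G := fun r => r) continuous_const
    (fun _ _ => zero_le_one) (fun r _ => by simp) (by fun_prop)
  have e1 := hC.layer (μ := μ) hfc hf0 (g := fun s => 2 * s) (G := fun r => r ^ 2) (by fun_prop)
    (fun t ht => by positivity) (fun r _ => by
      rw [intervalIntegral.integral_const_mul, integral_id]
      ring) (by fun_prop)
  have e2 := hC.layer (μ := μ) hfc hf0 (g := fun s => Real.exp (-s)) (G := fun r => 1 - Real.exp (-r))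
    (by fun_prop) (fun t ht => by positivity) (fun r _ => by
      have h0 : ∀ x ∈ uIcc 0 r, HasDerivAt (fun s => -Real.exp (-s)) (Real.exp (-x)) x := by
        intro x _
        have := ((hasDerivAt_neg x).exp).fun_neg
        simpa using this
      rw [intervalIntegral.integral_eq_sub_of_hasDerivAt h0
        (Continuous.intervalIntegrable (by fun_prop) _ _)]
      simp
      ring) (by fun_prop)
  have il : IntegrableOn (fun x => l x) C μ := hC.int_on (by fun_prop)
  have il2 : IntegrableOn (fun x => l x ^ 2) C μ := hC.int_on (by fun_prop)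
  have d0 : ∫ x in C, f x ∂μ = μ.real C * R := by
    simp only [f]
    have j1 : IntegrableOn (fun x => -l x) C μ := hC.int_on (by fun_prop)
    rw [integral_add j1 (hC.int_on continuous_const), integral_neg, h0, setIntegral_const]
    simp
  have d1 : ∫ x in C, f x ^ 2 ∂μ = μ.real C * (R ^ 2 + σ ^ 2) := by
    have : ∀ x, f x ^ 2 = l x ^ 2 - 2 * R * l x + R ^ 2 := fun x => by
      simp only [f]; ring
    simp_rw [this]
    have j1 : IntegrableOn (fun x => l x ^ 2 - 2 * R * l x) C μ := hC.int_on (by fun_prop)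
    have j2 : IntegrableOn (fun x => 2 * R * l x) C μ := hC.int_on (by fun_prop)
    rw [integral_add j1 (hC.int_on continuous_const),
      integral_sub il2 j2, integral_const_mul, h0, hσ2, setIntegral_const]
    simp
    ring
  have d2 : ∫ x in C, (1 - Real.exp (-f x)) ∂μ =
      μ.real C - Real.exp (-R) * ∫ x in C, Real.exp (l x) ∂μ := by
    have : ∀ x, Real.exp (-f x) = Real.exp (-R) * Real.exp (l x) := fun x => by
      rw [← Real.exp_add]
      congr 1
      simp only [f]; ring
    simp_rw [this]
    rw [integral_sub (hC.int_on continuous_const) (hC.int_on (by fun_prop)), integral_const_mul,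
      setIntegral_const]
    simp
  have hanti := hC.tl_anti (μ := μ) f
  have hc := cmpB hW hσp hσR (T := tl μ C f) (tl_nonneg f) hanti.measurable (hC.tl_le f) (2 * R)
    (fun s hs => tl_zero hfc hf2 hs)
    (fun a b t _ _ ht0 ht1 => by
      rw [htl, htl, htl]
      have h1 := hC.cap_logconc (μ := μ) (-l) (a := a - R) (b := b - R) ht0 ht1
      have : (1 - t) * (a - R) + t * (b - R) = (1 - t) * a + t * b - R := by ring
      rw [this] at h1
      exact h1)
    (by rw [← d0, e0]; simp) (by rw [← d1, e1])
  rw [← e2, d2] at hc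
  have h3 : Real.exp (σ - R) = Real.exp (-R) * Real.exp σ := by
    rw [← Real.exp_add]; congr 1; ring
  rw [h3] at hc
  have h4 : Real.exp (-R) * (μ.real C * (Real.exp σ / (1 + σ))) ≤
      Real.exp (-R) * ∫ x in C, Real.exp (l x) ∂μ := by
    have : Real.exp (-R) * (μ.real C * (Real.exp σ / (1 + σ))) =
      μ.real C * (Real.exp (-R) * Real.exp σ / (1 + σ)) := by ring
    rw [this]
    linarith
  exact le_of_mul_le_mul_left h4 (Real.exp_pos _)

/-- **Lemma A**: Laplace transforms of functionals which change sign under an involution -/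
theorem exp_le (hC : Body C) (l : V →L[ℝ] ℝ) (hl : l ≠ 0) {τ : V → V}
    (hτ : MeasurePreserving τ μ μ) (hτe : MeasurableEmbedding τ) (hτC : τ ⁻¹' C = C)
    (hτl : ∀ x, l (τ x) = -l x) {S : ℝ} (hS : ∫ x in C, (l x) ^ 2 ∂μ = μ.real C * S)
    {t : ℝ} (ht : 0 < t) (h : t ^ 2 * S < 2) :
    ∫ x in C, Real.exp (t * l x) ∂μ ≤ μ.real C / (1 - t ^ 2 * S / 2) := by
  have hW := hC.W_pos (μ := μ)
  have hfin := hC.fin (μ := μ)
  have hS0 : 0 < S := by
    have h1 := hC.sq_pos (μ := μ) hl 0
    simp only [sub_zero] at h1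
    rw [hS] at h1
    exact (mul_pos_iff_of_pos_left hW).1 h1
  set lam := Real.sqrt (2 / S) with hlam
  have hl2 : lam ^ 2 = 2 / S := Real.sq_sqrt (by positivity)
  have hl0 : 0 < lam := Real.sqrt_pos.2 (by positivity)
  have htl : t < lam := by
    rw [hlam]
    apply Real.lt_sqrt_of_sq_lt
    rw [lt_div_iff₀ hS0]
    exact h
  let f : V → ℝ := fun x => |l x|
  have hfc : Continuous f := by fun_prop
  have hf0 : ∀ x ∈ C, 0 ≤ f x := fun x _ => abs_nonneg _
  obtain ⟨R, hR⟩ := hC.cpt.exists_bound_of_continuousOn (f := fun x : V => l x) (by fun_prop)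
  have hR' : ∀ x ∈ C, f x ≤ R := fun x hx => by
    have := hR x hx
    rwa [Real.norm_eq_abs] at this
  -- symmetric caps
  have hcapneg : ∀ s, μ.real (C ∩ {x | s < -l x}) = μ.real (cap C l s) := by
    intro s
    have h4 := hτ.measure_preimage (hC.cap_meas l s).nullMeasurableSet
    rw [Measure.real, Measure.real, ← h4]
    congr 2
    ext x
    have h5 : τ x ∈ C ↔ x ∈ C := by
      constructor
      · intro h6
        have : x ∈ τ ⁻¹' C := h6
        rwa [hτC] at this
      · intro h6
        rw [← hτC] at h6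
        exact h6
    simp only [cap, mem_inter_iff, mem_ofPred_eq, mem_preimage, hτl, h5]
  have htail : ∀ s, 0 ≤ s → tl μ C f s = 2 * μ.real (cap C l s) := by
    intro s hs
    have hm : MeasurableSet {x : V | s < f x} := measurableSet_lt measurable_const (by fun_prop)
    have hm1 : MeasurableSet {x : V | s < -l x} := measurableSet_lt measurable_const (by fun_prop)
    have h1 : {x : V | s < f x} ∩ C = cap C l s ∪ (C ∩ {x | s < -l x}) := by
      ext x
      simp only [cap, f, mem_inter_iff, mem_ofPred_eq, mem_union, lt_abs]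
      tauto
    have h2 : Disjoint (cap C l s) (C ∩ {x | s < -l x}) := by
      rw [Set.disjoint_left]
      rintro x ⟨-, h3⟩ ⟨-, h4⟩
      simp only [mem_ofPred_eq] at h3 h4
      linarith
    unfold tl
    rw [measureReal_restrict_apply hm, h1, measureReal_union h2 (hC.meas.inter hm1)
      (hC.cap_fin l s) (ne_top_of_le_ne_top hC.vol_ne_top (measure_mono inter_subset_left)),
      hcapneg]
    ring
  have hzero : μ.real C = 2 * μ.real (cap C l 0) := by
    rw [← htail 0 le_rfl]
    unfold tl
    have hm : MeasurableSet {x : V | (0 : ℝ) < f x} :=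
      measurableSet_lt measurable_const (by fun_prop)
    rw [measureReal_restrict_apply hm, Measure.real, Measure.real]
    congr 1
    apply measure_congr
    have h0 : μ ((LinearMap.ker l.toLinearMap : Submodule ℝ V) : Set V) = 0 := by
      apply Measure.addHaar_submodule
      intro htop
      apply hl
      ext x
      have : x ∈ LinearMap.ker l.toLinearMap := by rw [htop]; trivial
      simpa using this
    have h1 : ∀ᵐ x ∂μ, x ∉ ((LinearMap.ker l.toLinearMap : Submodule ℝ V) : Set V) :=
      measure_eq_zero_iff_ae_notMem.1 h0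
    filter_upwards [h1] with x hx
    have h2 : l x ≠ 0 := by
      intro h
      apply hx
      simpa using h
    have h3 : (0 : ℝ) < f x := abs_pos.2 h2
    apply propext
    constructor
    · intro h
      exact ⟨h3, h⟩
    · intro h
      exact h.2
  have hcross : ∀ a b, 0 < a → a < b → tl μ C f a < μ.real C * Real.exp (-(lam * a)) →
      tl μ C f b < μ.real C * Real.exp (-(lam * b)) := by
    intro a b ha hab h
    have hb : 0 < b := by linarith
    by_contra hcon
    push Not at hcon
    have ht0 : 0 < a / b := by positivity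
    have ht1 : a / b < 1 := by rw [div_lt_one hb]; exact hab
    have h1 := hC.cap_logconc (μ := μ) l (a := 0) (b := b) ht0 ht1
    have e1 : (1 - a / b) * 0 + a / b * b = a := by field_simp; ring
    rw [e1] at h1
    rw [htail a ha.le] at h
    rw [htail b hb.le] at hcon
    set m0 := μ.real (cap C l 0) with hm0
    set ma := μ.real (cap C l a) with hma
    set mb := μ.real (cap C l b) with hmb
    have hm0p : 0 < m0 := by linarith
    rw [hzero] at h hcon
    have h2 : m0 * Real.exp (-(lam * b)) ≤ mb := by nlinarith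
    have h3 : ma < m0 * Real.exp (-(lam * a)) := by nlinarith
    have h4 : m0 ^ (1 - a / b) * (m0 * Real.exp (-(lam * b))) ^ (a / b) =
        m0 * Real.exp (-(lam * a)) := by
      rw [Real.mul_rpow hm0p.le (Real.exp_pos _).le, ← mul_assoc, ← Real.rpow_add hm0p,
        sub_add_cancel, Real.rpow_one, ← Real.exp_mul]
      congr 2
      field_simp
    have h5 : m0 ^ (1 - a / b) * (m0 * Real.exp (-(lam * b))) ^ (a / b) ≤
        m0 ^ (1 - a / b) * mb ^ (a / b) := by
      apply mul_le_mul_of_nonneg_left _ (by positivity)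
      exact Real.rpow_le_rpow (by positivity) h2 (by positivity)
    linarith
  have hanti := hC.tl_anti (μ := μ) f
  have e1 := hC.layer (μ := μ) hfc hf0 (g := fun s => 2 * s) (G := fun r => r ^ 2) (by fun_prop)
    (fun t ht => by positivity) (fun r _ => by
      rw [intervalIntegral.integral_const_mul, integral_id]
      ring) (by fun_prop)
  have e2 := hC.layer (μ := μ) hfc hf0 (g := fun s => t * Real.sinh (t * s))
    (G := fun r => Real.cosh (t * r) - 1)
    (by fun_prop) (fun s hs => by
      have : 0 < Real.sinh (t * s) := Real.sinh_pos_iff.2 (by positivity)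
      positivity) (fun r _ => by
      have h1 : ∀ x ∈ uIcc 0 r, HasDerivAt (fun s => Real.cosh (t * s))
          (t * Real.sinh (t * x)) x := by
        intro x _
        have h2 := (Real.hasDerivAt_cosh (t * x)).comp x ((hasDerivAt_id x).const_mul t)
        simp only [mul_one] at h2
        rw [mul_comm t (Real.sinh (t * x))]
        exact h2
      rw [intervalIntegral.integral_eq_sub_of_hasDerivAt h1
        (Continuous.intervalIntegrable (by fun_prop) _ _)]
      simp) (by fun_prop)
  have hc := Pool.Agent.R476.LI.cmp hW ht htl (T := tl μ C f) (tl_nonneg f) hanti.measurable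
    (hC.tl_le f) R (fun s hs => tl_zero hfc hR' hs) hcross
    (by
      rw [← e1, hl2]
      simp only [f, sq_abs]
      rw [hS]
      field_simp)
  have h2 := hc.2
  rw [← e2] at h2
  -- the symmetrised exponential
  have i1 : IntegrableOn (fun x => Real.exp (t * l x)) C μ := hC.int_on (by fun_prop)
  have i2 : IntegrableOn (fun x => Real.exp (-(t * l x))) C μ := hC.int_on (by fun_prop)
  have hneg : ∫ x in C, Real.exp (-(t * l x)) ∂μ = ∫ x in C, Real.exp (t * l x) ∂μ := by
    have h3 := hτ.setIntegral_preimage_emb hτe (fun x => Real.exp (t * l x)) C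
    rw [hτC] at h3
    rw [← h3]
    refine integral_congr_ae (Filter.Eventually.of_forall fun x => ?_)
    simp only [hτl]
    congr 1
    ring
  have h3 : ∫ x in C, (Real.cosh (t * f x) - 1) ∂μ =
      ∫ x in C, Real.exp (t * l x) ∂μ - μ.real C := by
    have h4 : ∀ x, Real.cosh (t * f x) - 1 =
        (Real.exp (t * l x) + Real.exp (-(t * l x))) / 2 - 1 := by
      intro x
      rw [← Real.cosh_eq]
      simp only [f]
      rcases abs_cases (l x) with ⟨h1, -⟩ | ⟨h1, -⟩
      · rw [h1]
      · rw [h1, mul_neg, Real.cosh_neg]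
    simp_rw [h4]
    have j1 : IntegrableOn (fun x => (Real.exp (t * l x) + Real.exp (-(t * l x))) / 2) C μ :=
      hC.int_on (by fun_prop)
    rw [integral_sub j1 (hC.int_on continuous_const), integral_div,
      integral_add i1 i2, hneg, setIntegral_const]
    simp
  rw [h3] at h2
  have h3 : 0 < lam ^ 2 - t ^ 2 := by nlinarith
  have h4 : 0 < 1 - t ^ 2 * S / 2 := by linarith
  have h5 : μ.real C + μ.real C * (t ^ 2 / (lam ^ 2 - t ^ 2)) =
      μ.real C / (1 - t ^ 2 * S / 2) := by
    rw [hl2] at h3 ⊢
    have h6 : 2 / S - t ^ 2 = (2 / S) * (1 - t ^ 2 * S / 2) := by field_simp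
    rw [h6]
    have h7 : 2 - t ^ 2 * S ≠ 0 := by
      intro h8
      linarith
    field_simp
    ring
  linarith

end Body

end Pool.Agent.N563.SE
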