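import Mathlib
import Pool.Agent.R476.LI.Gam
import Pool.Agent.N563.SE.Tail
import Pool.Agent.N563.SE.Rad

/-!
# The covariance matrix of a convex body (helper563)
-/

set_option autoImplicit false

open MeasureTheory Set
open scoped ENNReal MatrixOrder Matrix.Norms.L2Operator

namespace Pool.Agent.N563.SE

variable {n : ℕ} {K : Set (Fin n → ℝ)}

/-- the centroid -/
noncomputable def cen (K : Set (Fin n → ℝ)) : Fin n → ℝ :=
  fun i => (∫ x in K, x i) / (volume K).toReal

/-- the covariance matrix -/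
noncomputable def cov (K : Set (Fin n → ℝ)) : Matrix (Fin n) (Fin n) ℝ :=
  Matrix.of fun i j => (∫ x in K, (x i - cen K i) * (x j - cen K j)) / (volume K).toReal

/-- the functional `x ↦ ∑ x_i y_i` -/
noncomputable def lin (y : Fin n → ℝ) : (Fin n → ℝ) →L[ℝ] ℝ :=
  ∑ i, y i • ContinuousLinearMap.proj i

lemma lin_apply (y x : Fin n → ℝ) : lin y x = ∑ i, x i * y i := by
  unfold lin
  simp only [sum_apply, smul_apply,
    ContinuousLinearMap.proj_apply, smul_eq_mul]
  exact Finset.sum_congr rfl fun i _ => mul_comm _ _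

lemma lin_ne {y : Fin n → ℝ} (hy : y ≠ 0) : lin y ≠ 0 := by
  intro h
  apply hy
  have h1 := congrArg (fun l : (Fin n → ℝ) →L[ℝ] ℝ => l y) h
  simp only [lin_apply, zero_apply] at h1
  have h2 : ∀ i ∈ Finset.univ, y i * y i = 0 :=
    (Finset.sum_eq_zero_iff_of_nonneg fun i _ => mul_self_nonneg _).1 h1
  ext i
  exact mul_self_eq_zero.1 (h2 i (Finset.mem_univ i))

/-- the variance of `⟨x, y⟩` -/
noncomputable def vr (K : Set (Fin n → ℝ)) (y : Fin n → ℝ) : ℝ :=
  (∫ x in K, (lin y x - lin y (cen K)) ^ 2) / (volume K).toReal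

lemma vr_nonneg (K : Set (Fin n → ℝ)) (y : Fin n → ℝ) : 0 ≤ vr K y :=
  div_nonneg (integral_nonneg fun _ => sq_nonneg _) ENNReal.toReal_nonneg

lemma Wp (hK : Body K) : 0 < (volume K).toReal := hK.W_pos (μ := volume)

lemma vr_mul (hK : Body K) (y : Fin n → ℝ) :
    ∫ x in K, (lin y x - lin y (cen K)) ^ 2 = (volume K).toReal * vr K y := by
  have := Wp hK
  unfold vr
  field_simp

lemma vr_pos (hK : Body K) {y : Fin n → ℝ} (hy : y ≠ 0) : 0 < vr K y :=
  div_pos (hK.sq_pos (μ := volume) (lin_ne hy) _) (Wp hK)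

lemma cen_int (hK : Body K) (i : Fin n) : ∫ x in K, (x i - cen K i) = 0 := by
  have h1 : IntegrableOn (fun x : Fin n → ℝ => x i) K := hK.int_on (by fun_prop)
  have hW := Wp hK
  rw [integral_sub h1 (hK.int_on continuous_const), setIntegral_const]
  unfold cen
  simp only [smul_eq_mul, Measure.real]
  field_simp
  ring

lemma lin_cen_int (hK : Body K) (y : Fin n → ℝ) : ∫ x in K, (lin y x - lin y (cen K)) = 0 := by
  have h1 : ∀ x : Fin n → ℝ, lin y x - lin y (cen K) = ∑ i, y i * (x i - cen K i) := by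
    intro x
    rw [lin_apply, lin_apply, ← Finset.sum_sub_distrib]
    exact Finset.sum_congr rfl fun i _ => by ring
  simp_rw [h1]
  rw [integral_finsetSum _ fun i _ => hK.int_on (μ := volume) (by fun_prop)]
  refine Finset.sum_eq_zero fun i _ => ?_
  rw [integral_const_mul, cen_int hK, mul_zero]

lemma vr_eq (hK : Body K) (y : Fin n → ℝ) : vr K y = y ⬝ᵥ (cov K).mulVec y := by
  unfold vr
  have h1 : ∀ x : Fin n → ℝ, (lin y x - lin y (cen K)) ^ 2 =
      ∑ i, ∑ j, y i * (y j * ((x i - cen K i) * (x j - cen K j))) := by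
    intro x
    have h1 : lin y x - lin y (cen K) = ∑ i, y i * (x i - cen K i) := by
      rw [lin_apply, lin_apply, ← Finset.sum_sub_distrib]
      exact Finset.sum_congr rfl fun i _ => by ring
    rw [h1, sq, Finset.sum_mul_sum]
    refine Finset.sum_congr rfl fun i _ => Finset.sum_congr rfl fun j _ => ?_
    ring
  simp_rw [h1]
  have hi : ∀ i j, IntegrableOn
      (fun x : Fin n → ℝ => y i * (y j * ((x i - cen K i) * (x j - cen K j)))) K := fun i j =>
    hK.int_on (by fun_prop)
  rw [integral_finsetSum _ fun i _ => integrable_finsetSum _ fun j _ => hi i j]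
  have h2 : ∀ i, ∫ x in K, ∑ j, y i * (y j * ((x i - cen K i) * (x j - cen K j))) =
      ∑ j, y i * (y j * ∫ x in K, (x i - cen K i) * (x j - cen K j)) := by
    intro i
    rw [integral_finsetSum _ fun j _ => hi i j]
    refine Finset.sum_congr rfl fun j _ => ?_
    rw [integral_const_mul, integral_const_mul]
  simp_rw [h2]
  unfold dotProduct Matrix.mulVec dotProduct cov
  rw [Finset.sum_div]
  refine Finset.sum_congr rfl fun i _ => ?_
  rw [Finset.sum_div, Finset.mul_sum]
  refine Finset.sum_congr rfl fun j _ => ?_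
  simp only [Matrix.of_apply]
  ring

lemma cov_symm : (cov K).IsHermitian := by
  ext i j
  simp only [cov, Matrix.conjTranspose_apply, Matrix.of_apply, star_trivial]
  congr 2
  ext x
  ring

lemma cov_pos (hK : Body K) : (cov K).PosDef := by
  refine Matrix.PosDef.of_dotProduct_mulVec_pos cov_symm fun x hx => ?_
  have h := vr_pos hK hx
  rw [vr_eq hK] at h
  simpa using h

lemma det_pos (hK : Body K) : 0 < (cov K).det := (cov_pos hK).det_pos

/-- change of variables -/
theorem cov_int (hK : Body K) (g : ℝ → ℝ≥0∞) (hg : Measurable g) :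
    ∫⁻ y : Fin n → ℝ, g (vr K y) =
      ENNReal.ofReal (1 / Real.sqrt (cov K).det) *
        ∫⁻ u : EuclideanSpace ℝ (Fin n), g (‖u‖ ^ 2) := by
  obtain ⟨B, hB⟩ : ∃ B : Matrix (Fin n) (Fin n) ℝ, cov K = B.conjTranspose * B := by
    obtain ⟨B, hB⟩ := CStarAlgebra.nonneg_iff_eq_star_mul_self.mp (cov_pos hK).posSemidef.nonneg
    exact ⟨B, hB⟩
  have hdet : (cov K).det = B.det ^ 2 := by
    rw [hB, Matrix.det_mul, Matrix.det_conjTranspose, star_trivial, sq]
  have hdp := det_pos hK
  have hB0 : B.det ≠ 0 := by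
    intro h0
    rw [hdet, h0] at hdp
    norm_num at hdp
  let L : (Fin n → ℝ) →ₗ[ℝ] (Fin n → ℝ) := Matrix.toLin' B
  have hLdet : LinearMap.det L = B.det := LinearMap.det_toLin' B
  have hmap := Measure.map_linearMap_addHaar_eq_smul_addHaar (volume : Measure (Fin n → ℝ))
    (f := L) (by rw [hLdet]; exact hB0)
  have hsig : ∀ y : Fin n → ℝ, vr K y = ‖(WithLp.toLp 2 (L y) : EuclideanSpace ℝ (Fin n))‖ ^ 2 := by
    intro y
    rw [vr_eq hK, EuclideanSpace.norm_sq_eq]
    have h1 : ∀ i, (L y) i = (B.mulVec y) i := fun i => by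
      simp only [L, Matrix.toLin'_apply]
    simp only [Real.norm_eq_abs, sq_abs, h1]
    have h2 : ∑ i, (B.mulVec y) i ^ 2 = (B.mulVec y) ⬝ᵥ (B.mulVec y) := by
      unfold dotProduct
      exact Finset.sum_congr rfl fun i _ => by ring
    rw [h2, hB, ← Matrix.mulVec_mulVec, Matrix.dotProduct_mulVec]
    congr 1
    rw [Matrix.vecMul_conjTranspose]
    simp
  have h2 : ∫⁻ y : Fin n → ℝ, g (vr K y) =
      ∫⁻ u : Fin n → ℝ, g (‖(WithLp.toLp 2 u : EuclideanSpace ℝ (Fin n))‖ ^ 2)
        ∂(Measure.map L volume) := by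
    have hLm : Measurable L := (LinearMap.continuous_of_finiteDimensional L).measurable
    rw [lintegral_map (by fun_prop) hLm]
    refine lintegral_congr fun y => ?_
    rw [hsig]
  rw [h2, hmap, lintegral_smul_measure, smul_eq_mul, hLdet, hdet, Real.sqrt_sq_eq_abs, one_div,
    abs_inv]
  congr 1
  exact (PiLp.volume_preserving_toLp (Fin n)).lintegral_comp_emb
    (MeasurableEquiv.toLp 2 (Fin n → ℝ)).measurableEmbedding (fun u => g (‖u‖ ^ 2))

/-- `|K| / √(det Cov(K))`, which is `L_K ^ (-n)` -/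
noncomputable def AK (K : Set (Fin n → ℝ)) : ℝ := (volume K).toReal / Real.sqrt (cov K).det

lemma AK_pos (hK : Body K) : 0 < AK K := by
  have h1 := Wp hK
  have h2 := Real.sqrt_pos.2 (det_pos hK)
  unfold AK
  positivity

/-! ## the lower bound -/

lemma exp_int_pos (hK : Body K) (l : (Fin n → ℝ) →L[ℝ] ℝ) : 0 < ∫ x in K, Real.exp (l x) := by
  rw [setIntegral_pos_iff_support_of_nonneg_ae
    (Filter.Eventually.of_forall fun x => (Real.exp_pos _).le) (hK.int_on (by fun_prop))]
  have : Function.support (fun x : Fin n → ℝ => Real.exp (l x)) = univ := by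
    ext x
    simp [(Real.exp_pos (l x)).ne']
  rw [this, univ_inter]
  exact pos_iff_ne_zero.2 (hK.vol_ne (μ := volume))

/-- the product of the Laplace transforms at `y` and `-y` -/
lemma prod_le (hK : Body K) (y : Fin n → ℝ) {p : ℝ} (hp : 0 < p) (h : p ^ 2 * vr K y < 1) :
    (∫ x in K, Real.exp (p * lin y x)) * (∫ x in K, Real.exp (-(p * lin y x))) ≤
      (volume K).toReal ^ 2 / (1 - p ^ 2 * vr K y) := by
  have hW := Wp hK
  by_cases hy : y = 0
  · subst hy
    have h1 : ∀ x : Fin n → ℝ, lin (0 : Fin n → ℝ) x = 0 := fun x => by rw [lin_apply]; simp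
    have h2 : vr K (0 : Fin n → ℝ) = 0 := by
      unfold vr
      simp [h1]
    rw [h2]
    simp only [h1, mul_zero, neg_zero, Real.exp_zero, setIntegral_const, smul_eq_mul, mul_one,
      sub_zero, div_one, Measure.real]
    rw [sq]
  -- the product body
  have : (volume : Measure ((Fin n → ℝ) × (Fin n → ℝ))).IsAddHaarMeasure :=
    Measure.prod.instIsAddHaarMeasure _ _
  have hC : Body (K ×ˢ K) := by
    refine ⟨hK.cpt.prod hK.cpt, hK.conv.prod hK.conv, ?_⟩
    rw [interior_prod_eq]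
    exact hK.int.prod hK.int
  let l : ((Fin n → ℝ) × (Fin n → ℝ)) →L[ℝ] ℝ :=
    (lin y).comp (ContinuousLinearMap.fst ℝ _ _) - (lin y).comp (ContinuousLinearMap.snd ℝ _ _)
  have hl : ∀ z, l z = lin y z.1 - lin y z.2 := fun z => rfl
  have hl0 : l ≠ 0 := by
    intro h0
    apply lin_ne hy
    ext1 x
    have h1 := congrArg (fun l : ((Fin n → ℝ) × (Fin n → ℝ)) →L[ℝ] ℝ => l (x, 0)) h0
    simp only [hl, map_zero, sub_zero, zero_apply] at h1
    rw [h1]
    simp
  have hCW : (volume : Measure ((Fin n → ℝ) × (Fin n → ℝ))).real (K ×ˢ K) =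
      (volume K).toReal ^ 2 := by
    rw [Measure.real, Measure.volume_eq_prod, Measure.prod_prod, ENNReal.toReal_mul, sq]
  have hS : ∫ z in K ×ˢ K, (l z) ^ 2 = (volume : Measure ((Fin n → ℝ) × (Fin n → ℝ))).real
      (K ×ˢ K) * (2 * vr K y) := by
    set m := lin y (cen K) with hm
    have e : ∀ z : (Fin n → ℝ) × (Fin n → ℝ), (l z) ^ 2 =
        ((lin y z.1 - m) ^ 2 * 1 + 1 * (lin y z.2 - m) ^ 2) -
          2 * ((lin y z.1 - m) * (lin y z.2 - m)) := by
      intro z
      rw [hl]
      ring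
    simp_rw [e]
    have i1 : IntegrableOn (fun z : (Fin n → ℝ) × (Fin n → ℝ) => (lin y z.1 - m) ^ 2 * 1)
      (K ×ˢ K) := hC.int_on (by fun_prop)
    have i2 : IntegrableOn (fun z : (Fin n → ℝ) × (Fin n → ℝ) => 1 * (lin y z.2 - m) ^ 2)
      (K ×ˢ K) := hC.int_on (by fun_prop)
    have i12 : IntegrableOn (fun z : (Fin n → ℝ) × (Fin n → ℝ) =>
      (lin y z.1 - m) ^ 2 * 1 + 1 * (lin y z.2 - m) ^ 2) (K ×ˢ K) := hC.int_on (by fun_prop)
    have i3 : IntegrableOn (fun z : (Fin n → ℝ) × (Fin n → ℝ) =>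
      2 * ((lin y z.1 - m) * (lin y z.2 - m))) (K ×ˢ K) := hC.int_on (by fun_prop)
    have q1 : ∫ z in K ×ˢ K, (lin y z.1 - m) ^ 2 * 1 =
        (∫ x in K, (lin y x - m) ^ 2) * ∫ _x in K, (1 : ℝ) := by
      rw [Measure.volume_eq_prod]
      exact setIntegral_prod_mul (fun x => (lin y x - m) ^ 2) (fun _ => (1 : ℝ)) K K
    have q2 : ∫ z in K ×ˢ K, 1 * (lin y z.2 - m) ^ 2 =
        (∫ _x in K, (1 : ℝ)) * ∫ x in K, (lin y x - m) ^ 2 := by
      rw [Measure.volume_eq_prod]
      exact setIntegral_prod_mul (fun _ => (1 : ℝ)) (fun x => (lin y x - m) ^ 2) K K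
    have q3 : ∫ z in K ×ˢ K, 2 * ((lin y z.1 - m) * (lin y z.2 - m)) = 0 := by
      have q4 : ∫ z in K ×ˢ K, (lin y z.1 - m) * (lin y z.2 - m) =
          (∫ x in K, (lin y x - m)) * ∫ x in K, (lin y x - m) := by
        rw [Measure.volume_eq_prod]
        exact setIntegral_prod_mul (fun x => (lin y x - m)) (fun x => (lin y x - m)) K K
      rw [integral_const_mul, q4, lin_cen_int hK]
      ring
    rw [integral_sub i12 i3, integral_add i1 i2, q1, q2, q3, hCW, vr_mul hK, setIntegral_const]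
    simp only [smul_eq_mul, mul_one, Measure.real]
    ring
  have h2 : p ^ 2 * (2 * vr K y) < 2 := by linarith
  have key := hC.exp_le (μ := volume) l hl0 (τ := Prod.swap)
    (by rw [Measure.volume_eq_prod]; exact Measure.measurePreserving_swap)
    (MeasurableEquiv.prodComm (α := Fin n → ℝ) (β := Fin n → ℝ)).measurableEmbedding
    (by
      ext z
      simp only [mem_preimage, mem_prod, Prod.fst_swap, Prod.snd_swap]
      tauto)
    (fun z => by
      rw [hl, hl, Prod.fst_swap, Prod.snd_swap]; ring) hS hp h2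
  rw [hCW] at key
  have e1 : ∫ z in K ×ˢ K, Real.exp (p * l z) =
      (∫ x in K, Real.exp (p * lin y x)) * (∫ x in K, Real.exp (-(p * lin y x))) := by
    rw [Measure.volume_eq_prod, ← setIntegral_prod_mul]
    refine integral_congr_ae (Filter.Eventually.of_forall fun z => ?_)
    simp only [hl]
    rw [← Real.exp_add]
    congr 1
    ring
  rw [e1] at key
  refine key.trans (le_of_eq ?_)
  congr 1
  ring

/-- the normalised Laplace transform -/
noncomputable def lap (p : ℝ) (K : Set (Fin n → ℝ)) (y : Fin n → ℝ) : ℝ :=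
  (∫ x in K, Real.exp (p * ∑ i, x i * y i)) / (volume K).toReal

lemma lap_eq (p : ℝ) (K : Set (Fin n → ℝ)) (y : Fin n → ℝ) :
    lap p K y = (∫ x in K, Real.exp (p * lin y x)) / (volume K).toReal := by
  unfold lap
  simp_rw [lin_apply]

lemma lap_pos (hK : Body K) (p : ℝ) (y : Fin n → ℝ) : 0 < lap p K y := by
  rw [lap_eq]
  have := exp_int_pos hK (p • lin y)
  have hW := Wp hK
  simp only [smul_apply, smul_eq_mul] at this
  positivity

lemma lap_meas (p : ℝ) (K : Set (Fin n → ℝ)) : Measurable (lap p K) := by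
  unfold lap
  refine Measurable.div_const ?_ _
  have h : StronglyMeasurable (Function.uncurry fun (y x : Fin n → ℝ) =>
      Real.exp (p * ∑ i, x i * y i)) := by
    apply Continuous.stronglyMeasurable
    unfold Function.uncurry
    fun_prop
  exact (h.integral_prod_right' (ν := volume.restrict K)).measurable

lemma low_pt (hK : Body K) (y : Fin n → ℝ) {p : ℝ} (hp : 0 < p) :
    2 * (max 0 (1 - p ^ 2 * vr K y)) ^ (1 / (2 * p)) ≤
      lap p K y ^ (-(1 / p)) + lap p K (-y) ^ (-(1 / p)) := by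
  have h1 := lap_pos hK p y
  have h2 := lap_pos hK p (-y)
  rcases le_or_gt 1 (p ^ 2 * vr K y) with h | h
  · rw [max_eq_left (by linarith), Real.zero_rpow (by positivity)]
    have := Real.rpow_nonneg h1.le (-(1 / p))
    have := Real.rpow_nonneg h2.le (-(1 / p))
    linarith
  · have h3 : 0 < 1 - p ^ 2 * vr K y := by linarith
    rw [max_eq_right h3.le]
    have hW := Wp hK
    have h4 : lap p K y * lap p K (-y) ≤ 1 / (1 - p ^ 2 * vr K y) := by
      have h5 := prod_le hK y hp h
      rw [lap_eq, lap_eq]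
      have h6 : ∀ x, lin (-y) x = -lin y x := fun x => by
        rw [lin_apply, lin_apply]; simp
      simp only [h6, mul_neg]
      rw [div_mul_div_comm, div_le_div_iff₀ (by positivity) h3]
      rw [le_div_iff₀ h3] at h5
      nlinarith
    set A := lap p K y ^ (-(1 / p)) with hA
    set B := lap p K (-y) ^ (-(1 / p)) with hB
    have hA0 : 0 < A := Real.rpow_pos_of_pos h1 _
    have hB0 : 0 < B := Real.rpow_pos_of_pos h2 _
    have h5 : (1 - p ^ 2 * vr K y) ^ (1 / (2 * p)) ≤ Real.sqrt (A * B) := by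
      have h6 : Real.sqrt (A * B) = (lap p K y * lap p K (-y)) ^ (-(1 / (2 * p))) := by
        rw [hA, hB, ← Real.mul_rpow h1.le h2.le, Real.sqrt_eq_rpow,
          ← Real.rpow_mul (by positivity)]
        congr 1
        field_simp
      rw [h6]
      have h7 : (1 - p ^ 2 * vr K y) ^ (1 / (2 * p)) =
          (1 / (1 - p ^ 2 * vr K y)) ^ (-(1 / (2 * p))) := by
        rw [one_div (1 - p ^ 2 * vr K y), Real.inv_rpow h3.le, Real.rpow_neg h3.le, inv_inv]
      rw [h7]
      exact Real.rpow_le_rpow_of_nonpos (by positivity) h4 (by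
        rw [neg_nonpos]; positivity)
    have h6 : 2 * Real.sqrt (A * B) ≤ A + B := by
      rw [Real.sqrt_mul hA0.le]
      have h7 := sq_nonneg (Real.sqrt A - Real.sqrt B)
      have h8 := Real.sq_sqrt hA0.le
      have h9 := Real.sq_sqrt hB0.le
      nlinarith
    linarith

/-- the `L^p` Mahler volume -/
noncomputable def Mv (p : ℝ) (K : Set (Fin n → ℝ)) : ℝ≥0∞ :=
  volume K * ∫⁻ y : Fin n → ℝ, ENNReal.ofReal
    (((∫ x in K, Real.exp (p * ∑ i, x i * y i)) / (volume K).toReal) ^ (-(1 / p)))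

lemma vol_ofReal (hK : Body K) : volume K = ENNReal.ofReal (volume K).toReal :=
  (ENNReal.ofReal_toReal hK.vol_ne_top).symm

/-- **the lower bound**, in all positions -/
theorem low (hK : Body K) {p : ℝ} (hp : 0 < p) :
    ENNReal.ofReal (AK K * (2 * Real.pi / (p * (1 + p * (n + 2)))) ^ ((n : ℝ) / 2)) ≤ Mv p K := by
  have hpi := Real.pi_pos
  have hA := AK_pos hK
  have hW := Wp hK
  have hN : 0 < 1 / (2 * p) := by positivity
  have hx : 0 < 1 / (2 * p) + 1 := by positivity
  -- the symmetrised integral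
  have hsym : ∫⁻ y : Fin n → ℝ, ENNReal.ofReal
      ((max 0 (1 - p ^ 2 * vr K y)) ^ (1 / (2 * p))) ≤
      ∫⁻ y : Fin n → ℝ, ENNReal.ofReal (lap p K y ^ (-(1 / p))) := by
    set F : (Fin n → ℝ) → ℝ≥0∞ := fun y => ENNReal.ofReal (lap p K y ^ (-(1 / p))) with hF
    have hFm : Measurable F := by
      have := lap_meas p K
      fun_prop
    have h1 : ∫⁻ y, F (-y) = ∫⁻ y, F y := lintegral_neg_eq_self F
    have h2 : 2 * ∫⁻ y : Fin n → ℝ, ENNReal.ofReal
      ((max 0 (1 - p ^ 2 * vr K y)) ^ (1 / (2 * p))) ≤ 2 * ∫⁻ y, F y := by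
      calc 2 * ∫⁻ y : Fin n → ℝ, ENNReal.ofReal
            ((max 0 (1 - p ^ 2 * vr K y)) ^ (1 / (2 * p)))
          = ∫⁻ y : Fin n → ℝ, 2 * ENNReal.ofReal
            ((max 0 (1 - p ^ 2 * vr K y)) ^ (1 / (2 * p))) :=
            (lintegral_const_mul' _ _ (by norm_num)).symm
        _ ≤ ∫⁻ y, (F y + F (-y)) := by
            gcongr with y
            rw [hF]
            beta_reduce
            have h3 := low_pt hK y hp
            have h4 := lap_pos hK p y
            have h5 := lap_pos hK p (-y)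
            rw [← ENNReal.ofReal_add (by positivity) (by positivity),
              show (2 : ℝ≥0∞) = ENNReal.ofReal 2 by simp, ← ENNReal.ofReal_mul (by norm_num)]
            exact ENNReal.ofReal_le_ofReal h3
        _ = 2 * ∫⁻ y, F y := by
            rw [lintegral_add_left hFm, h1, two_mul]
    rwa [ENNReal.mul_le_mul_iff_right (by norm_num) (by norm_num)] at h2
  have hb := Pool.Agent.R476.LI.lint_beta (V := EuclideanSpace ℝ (Fin n)) (c := p ^ 2)
    (N := 1 / (2 * p)) (by positivity) hN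
  rw [finrank_euclideanSpace_fin] at hb
  have hci := cov_int hK (fun s => ENNReal.ofReal ((max 0 (1 - p ^ 2 * s)) ^ (1 / (2 * p))))
    (by fun_prop)
  rw [hb] at hci
  have hG1 := Real.Gamma_pos_of_pos hx
  have hG2 := Real.Gamma_pos_of_pos (show 0 < 1 / (2 * p) + 1 + (n : ℝ) / 2 by positivity)
  have h1 := Pool.Agent.R476.LI.gam_up (x := 1 / (2 * p) + 1) (s := (n : ℝ) / 2) hx (by positivity)
  have h2 : (1 / (2 * p) + 1 + (n : ℝ) / 2) ^ (-((n : ℝ) / 2)) ≤
      Real.Gamma (1 / (2 * p) + 1) / Real.Gamma (1 / (2 * p) + 1 + (n : ℝ) / 2) := by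
    rw [Real.rpow_neg (by positivity), le_div_iff₀ hG2, inv_mul_le_iff₀ (by positivity)]
    exact h1.trans (le_of_eq (mul_comm _ _))
  have h3 : (2 * Real.pi / (p * (1 + p * (n + 2)))) ^ ((n : ℝ) / 2) ≤
      (Real.pi / p ^ 2) ^ ((n : ℝ) / 2) *
        (Real.Gamma (1 / (2 * p) + 1) / Real.Gamma (1 / (2 * p) + 1 + (n : ℝ) / 2)) := by
    calc (2 * Real.pi / (p * (1 + p * (n + 2)))) ^ ((n : ℝ) / 2)
        = (Real.pi / p ^ 2) ^ ((n : ℝ) / 2) *
            (1 / (2 * p) + 1 + (n : ℝ) / 2) ^ (-((n : ℝ) / 2)) := by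
          rw [Real.rpow_neg (by positivity), ← Real.inv_rpow (by positivity),
            ← Real.mul_rpow (by positivity) (by positivity)]
          congr 1
          field_simp
          ring
      _ ≤ _ := mul_le_mul_of_nonneg_left h2 (by positivity)
  calc ENNReal.ofReal (AK K * (2 * Real.pi / (p * (1 + p * (n + 2)))) ^ ((n : ℝ) / 2))
      ≤ ENNReal.ofReal (AK K * ((Real.pi / p ^ 2) ^ ((n : ℝ) / 2) *
        (Real.Gamma (1 / (2 * p) + 1) / Real.Gamma (1 / (2 * p) + 1 + (n : ℝ) / 2)))) := by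
        apply ENNReal.ofReal_le_ofReal
        exact mul_le_mul_of_nonneg_left h3 hA.le
    _ = volume K * ∫⁻ y : Fin n → ℝ, ENNReal.ofReal
          ((max 0 (1 - p ^ 2 * vr K y)) ^ (1 / (2 * p))) := by
        rw [hci, vol_ofReal hK, ← ENNReal.ofReal_mul (by positivity),
          ← ENNReal.ofReal_mul (by positivity)]
        congr 1
        unfold AK
        ring
    _ ≤ volume K * ∫⁻ y : Fin n → ℝ, ENNReal.ofReal (lap p K y ^ (-(1 / p))) := by
        gcongr
    _ = Mv p K := rfl

/-! ## the upper bound -/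

lemma up_pt (hK : Body K) (hc : cen K = 0) (y : Fin n → ℝ) {p : ℝ} (hp : 0 < p) :
    lap p K y ^ (-(1 / p)) ≤ ff p (Real.sqrt (vr K y)) := by
  have hW := Wp hK
  set σ := Real.sqrt (vr K y) with hσ
  have hσ0 : 0 ≤ σ := Real.sqrt_nonneg _
  have hσ2 : σ ^ 2 = vr K y := Real.sq_sqrt (vr_nonneg K y)
  have h1 := hK.exp_ge (μ := volume) (p • lin y) (σ := p * σ) (by
      have h2 := lin_cen_int hK y
      rw [hc, map_zero] at h2
      simp only [sub_zero] at h2
      simp only [smul_apply, smul_eq_mul]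
      rw [integral_const_mul, h2, mul_zero]) (by positivity) (by
      have h2 := vr_mul hK y
      rw [hc, map_zero] at h2
      simp only [sub_zero] at h2
      simp only [smul_apply, smul_eq_mul, mul_pow]
      rw [integral_const_mul, h2, hσ2, Measure.real]
      ring)
  simp only [smul_apply, smul_eq_mul] at h1
  have h2 : Real.exp (p * σ) / (1 + p * σ) ≤ lap p K y := by
    rw [lap_eq, le_div_iff₀ hW, mul_comm]
    exact h1
  have h3 : 0 < 1 + p * σ := by positivity
  have h4 : (0 : ℝ) < Real.exp (p * σ) / (1 + p * σ) := by positivity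
  refine (Real.rpow_le_rpow_of_nonpos h4 h2 (by rw [neg_nonpos]; positivity)).trans (le_of_eq ?_)
  unfold ff
  rw [Real.rpow_neg h4.le, ← Real.inv_rpow h4.le, inv_div, div_eq_mul_inv,
    Real.mul_rpow h3.le (by positivity), ← Real.exp_neg, ← Real.exp_mul, mul_comm]
  congr 2
  field_simp

/-- **the upper bound**, for centred bodies -/
theorem up (hK : Body K) (hc : cen K = 0) {p : ℝ} (hp : 0 < p)
    (hpn : p * (n : ℝ) ^ 2 ≤ n + 2) :
    Mv p K ≤ ENNReal.ofReal (AK K * ((2 * Real.pi / p) ^ ((n : ℝ) / 2) *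
      Real.exp (5 / 8 * n * Real.sqrt (p * (n + 2))))) := by
  have hpi := Real.pi_pos
  have hW := Wp hK
  have hr := rad (V := EuclideanSpace ℝ (Fin n)) hp (by rw [finrank_euclideanSpace_fin]; exact hpn)
  rw [finrank_euclideanSpace_fin] at hr
  have hfm : Measurable (ff p) := by unfold ff; fun_prop
  have hci := cov_int hK (fun s => ENNReal.ofReal (ff p (Real.sqrt s))) (by fun_prop)
  simp only [Real.sqrt_sq (norm_nonneg _)] at hci
  calc Mv p K = volume K * ∫⁻ y : Fin n → ℝ, ENNReal.ofReal (lap p K y ^ (-(1 / p))) := rfl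
    _ ≤ volume K * ∫⁻ y : Fin n → ℝ, ENNReal.ofReal (ff p (Real.sqrt (vr K y))) := by
        gcongr with y
        exact up_pt hK hc y hp
    _ = volume K * (ENNReal.ofReal (1 / Real.sqrt (cov K).det) *
        ∫⁻ u : EuclideanSpace ℝ (Fin n), ENNReal.ofReal (ff p ‖u‖)) := by
        rw [hci]
    _ ≤ volume K * (ENNReal.ofReal (1 / Real.sqrt (cov K).det) *
        ENNReal.ofReal ((2 * Real.pi / p) ^ ((n : ℝ) / 2) *
          Real.exp (5 / 8 * n * Real.sqrt (p * (n + 2))))) := by gcongr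
    _ = _ := by
        rw [vol_ofReal hK, ← ENNReal.ofReal_mul (by positivity),
          ← ENNReal.ofReal_mul (by positivity)]
        congr 1
        unfold AK
        ring

end Pool.Agent.N563.SE
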