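import Mathlib
import Pool.Agent.N563.SE.Cov

/-!
# Small exponents (helper563)
-/

set_option autoImplicit false

open MeasureTheory Set Filter Topology
open scoped ENNReal

namespace Pool.Agent.N563.SE

variable {n : ℕ} {K : Set (Fin n → ℝ)}

/-! ## translations -/

/-- the translate `K - z` -/
def sh (z : Fin n → ℝ) (K : Set (Fin n → ℝ)) : Set (Fin n → ℝ) :=
  (fun x : Fin n → ℝ => x - z) '' K

lemma sh_eq (z : Fin n → ℝ) (K : Set (Fin n → ℝ)) :
    sh z K = (Homeomorph.addRight (-z)) '' K := by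
  unfold sh
  refine image_congr fun x _ => ?_
  simp [sub_eq_add_neg]

lemma body_sh (hK : Body K) (z : Fin n → ℝ) : Body (sh z K) := by
  refine ⟨?_, ?_, ?_⟩
  · exact hK.cpt.image (by fun_prop)
  · have h1 := hK.conv.translate (-z)
    have h2 : (fun x => -z + x) '' K = sh z K := by
      unfold sh
      refine image_congr fun x _ => ?_
      abel
    rwa [h2] at h1
  · rw [sh_eq, ← Homeomorph.image_interior]
    exact hK.int.image _

lemma mp_sub (z : Fin n → ℝ) :
    MeasurePreserving (fun x : Fin n → ℝ => x - z) volume volume :=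
  measurePreserving_sub_right volume z

lemma me_sub (z : Fin n → ℝ) : MeasurableEmbedding (fun x : Fin n → ℝ => x - z) :=
  (MeasurableEquiv.subRight z).measurableEmbedding

lemma vol_sh (z : Fin n → ℝ) (K : Set (Fin n → ℝ)) : volume (sh z K) = volume K := by
  unfold sh
  rw [← (mp_sub z).measure_preimage_emb (me_sub z), preimage_image_eq _ (me_sub z).injective]

lemma int_sh (z : Fin n → ℝ) (K : Set (Fin n → ℝ)) (f : (Fin n → ℝ) → ℝ) :
    ∫ x in sh z K, f x = ∫ x in K, f (x - z) := by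
  unfold sh
  exact (mp_sub z).setIntegral_image_emb (me_sub z) f K

lemma cen_sh (hK : Body K) (z : Fin n → ℝ) : cen (sh z K) = cen K - z := by
  ext i
  unfold cen
  rw [vol_sh, int_sh]
  have hW := Wp hK
  have h1 : IntegrableOn (fun x : Fin n → ℝ => x i) K := hK.int_on (by fun_prop)
  simp only [Pi.sub_apply]
  rw [integral_sub h1 (hK.int_on continuous_const), setIntegral_const]
  simp only [smul_eq_mul, Measure.real]
  field_simp

lemma cov_sh (hK : Body K) (z : Fin n → ℝ) : cov (sh z K) = cov K := by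
  ext i j
  unfold cov
  simp only [Matrix.of_apply]
  rw [vol_sh, int_sh, cen_sh hK]
  simp only [Pi.sub_apply]
  congr 2
  ext x
  ring

lemma AK_sh (hK : Body K) (z : Fin n → ℝ) : AK (sh z K) = AK K := by
  unfold AK
  rw [vol_sh, cov_sh hK]

/-! ## the isotropic constant -/

/-- the isotropic constant -/
noncomputable def LK (K : Set (Fin n → ℝ)) : ℝ :=
  (Real.sqrt (cov K).det / (volume K).toReal) ^ (1 / (n : ℝ))

lemma LK_pos (hK : Body K) : 0 < LK K := by
  have h1 := Wp hK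
  have h2 := Real.sqrt_pos.2 (det_pos hK)
  unfold LK
  positivity

lemma AK_eq (hn : 1 ≤ n) (hK : Body K) : AK K = 1 / LK K ^ n := by
  have h1 := Wp hK
  have h2 := Real.sqrt_pos.2 (det_pos hK)
  have hn0 : (n : ℝ) ≠ 0 := by positivity
  have h3 : LK K ^ n = Real.sqrt (cov K).det / (volume K).toReal := by
    unfold LK
    rw [← Real.rpow_natCast, ← Real.rpow_mul (by positivity), one_div, inv_mul_cancel₀ hn0,
      Real.rpow_one]
  rw [h3]
  unfold AK
  field_simp

lemma LK_sh (hK : Body K) (z : Fin n → ℝ) : LK (sh z K) = LK K := by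
  unfold LK
  rw [vol_sh, cov_sh hK]

/-- the loss -/
noncomputable def rho (n : ℕ) (p : ℝ) : ℝ :=
  Real.sqrt (1 + p * (n + 2)) * Real.exp (5 / 8 * Real.sqrt (p * (n + 2)))

lemma rho_ge {p : ℝ} (hp : 0 < p) : 1 ≤ rho n p := by
  unfold rho
  have h1 : 1 ≤ Real.sqrt (1 + p * (n + 2)) := by
    rw [Real.one_le_sqrt]
    have : 0 ≤ p * ((n : ℝ) + 2) := by positivity
    linarith
  have h2 : 1 ≤ Real.exp (5 / 8 * Real.sqrt (p * (n + 2))) := Real.one_le_exp (by positivity)
  nlinarith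

lemma rho_pos {p : ℝ} (hp : 0 < p) : 0 < rho n p := lt_of_lt_of_le one_pos (rho_ge hp)

lemma rho_lim (n : ℕ) : Tendsto (rho n) (𝓝[>] 0) (𝓝 1) := by
  have h : Continuous (rho n) := by
    unfold rho
    fun_prop
  have h1 := h.tendsto 0
  have h2 : rho n 0 = 1 := by unfold rho; simp
  rw [h2] at h1
  exact h1.mono_left nhdsWithin_le_nhds

lemma half {x : ℝ} (hx : 0 ≤ x) (n : ℕ) : x ^ ((n : ℝ) / 2) = Real.sqrt x ^ n := by
  rw [Real.sqrt_eq_rpow, ← Real.rpow_natCast, ← Real.rpow_mul hx]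
  congr 1
  ring

/-- the lower bound, all positions -/
theorem lowL (hn : 1 ≤ n) (hK : Body K) {p : ℝ} (hp : 0 < p) :
    ENNReal.ofReal ((Real.sqrt (2 * Real.pi / p) / (Real.sqrt (1 + p * (n + 2)) * LK K)) ^ n) ≤
      Mv p K := by
  have hpi := Real.pi_pos
  have hL := LK_pos hK
  refine le_trans (ENNReal.ofReal_le_ofReal (le_of_eq ?_)) (low hK hp)
  rw [AK_eq hn hK, half (by positivity)]
  have e : Real.sqrt (2 * Real.pi / (p * (1 + p * (n + 2)))) =
      Real.sqrt (2 * Real.pi / p) / Real.sqrt (1 + p * (n + 2)) := by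
    rw [← Real.sqrt_div (show 0 ≤ 2 * Real.pi / p by positivity)]
    congr 1
    field_simp
  rw [e, div_pow, mul_pow, div_pow]
  field_simp

/-- the upper bound at the centroid -/
theorem upL (hn : 1 ≤ n) (hK : Body K) {p : ℝ} (hp : 0 < p) (hpn : p * (n : ℝ) ^ 2 ≤ n + 2) :
    Mv p (sh (cen K) K) ≤
      ENNReal.ofReal ((Real.sqrt (2 * Real.pi / p) * Real.exp (5 / 8 * Real.sqrt (p * (n + 2))) /
        LK K) ^ n) := by
  have hpi := Real.pi_pos
  have hL := LK_pos hK
  have hc : cen (sh (cen K) K) = 0 := by rw [cen_sh hK]; simp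
  refine (up (body_sh hK _) hc hp hpn).trans (ENNReal.ofReal_le_ofReal (le_of_eq ?_))
  rw [AK_sh hK, AK_eq hn hK, half (by positivity)]
  have e : Real.exp (5 / 8 * n * Real.sqrt (p * (n + 2))) =
      Real.exp (5 / 8 * Real.sqrt (p * (n + 2))) ^ n := by
    rw [← Real.exp_nat_mul]
    congr 1
    ring
  rw [e, div_pow, mul_pow]
  field_simp

/-! ## comparison of two bodies -/

/-- `M_p(D - cen D) ≤ (ρ L_K / L_D)^n M_p(K)` -/
theorem cmp2 (hn : 1 ≤ n) {D : Set (Fin n → ℝ)} (hD : Body D) (hK : Body K) {p : ℝ} (hp : 0 < p)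
    (hpn : p * (n : ℝ) ^ 2 ≤ n + 2) :
    Mv p (sh (cen D) D) ≤ ENNReal.ofReal ((rho n p * LK K / LK D) ^ n) * Mv p K := by
  have hpi := Real.pi_pos
  have hL := LK_pos hK
  have hL' := LK_pos hD
  refine (upL hn hD hp hpn).trans ?_
  refine le_trans ?_ (mul_le_mul_right (lowL hn hK hp) _)
  rw [← ENNReal.ofReal_mul (by have := rho_pos (n := n) hp; positivity), ← mul_pow]
  apply ENNReal.ofReal_le_ofReal
  apply le_of_eq
  congr 1
  unfold rho
  have h1 : 0 < Real.sqrt (1 + p * (n + 2)) := Real.sqrt_pos.2 (by positivity)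
  field_simp

lemma low_pos (hn : 1 ≤ n) (hK : Body K) {p : ℝ} (hp : 0 < p) : 0 < Mv p K := by
  have hpi := Real.pi_pos
  have hL := LK_pos hK
  refine lt_of_lt_of_le ?_ (lowL hn hK hp)
  rw [ENNReal.ofReal_pos]
  have h1 : 0 < Real.sqrt (1 + p * (n + 2)) := Real.sqrt_pos.2 (by positivity)
  positivity

/-- strict comparison -/
theorem lt2 (hn : 1 ≤ n) {D : Set (Fin n → ℝ)} (hD : Body D) (hK : Body K) {p : ℝ} (hp : 0 < p)
    (hpn : p * (n : ℝ) ^ 2 ≤ n + 2) (h : rho n p * LK K < LK D) :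
    Mv p (sh (cen D) D) < Mv p K := by
  have hL := LK_pos hK
  have hL' := LK_pos hD
  have hr := rho_pos (n := n) hp
  have hDt : Mv p (sh (cen D) D) ≠ ⊤ := ((upL hn hD hp hpn).trans_lt ENNReal.ofReal_lt_top).ne
  have hD0 : 0 < Mv p (sh (cen D) D) := low_pos hn (body_sh hD _) hp
  by_contra hcon
  push Not at hcon
  have h1 := (cmp2 hn hD hK hp hpn).trans (mul_le_mul_right hcon _)
  have h2 : (rho n p * LK K / LK D) ^ n < 1 := by
    apply pow_lt_one₀ (by positivity) _ (by omega)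
    rw [div_lt_one hL']
    exact h
  have h3 : ENNReal.ofReal ((rho n p * LK K / LK D) ^ n) * Mv p (sh (cen D) D) <
      1 * Mv p (sh (cen D) D) := by
    rw [ENNReal.mul_lt_mul_iff_left hD0.ne' hDt]
    rw [show (1 : ℝ≥0∞) = ENNReal.ofReal 1 by simp, ENNReal.ofReal_lt_ofReal_iff one_pos]
    exact h2
  rw [one_mul] at h3
  exact absurd h1 (not_le.2 h3)

end Pool.Agent.N563.SE
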