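import Mathlib
import Pool.Agent.N563.SE.Main

/-!
# Small exponents: the simplex, the limit, the equivalence (helper563)
-/

set_option autoImplicit false

open MeasureTheory Set Filter Topology
open scoped ENNReal

namespace Pool.Agent.N563.SE

variable {n : ℕ} {K D : Set (Fin n → ℝ)}

/-- the centroid belongs to the body -/
lemma cen_mem (hK : Body K) : cen K ∈ K := by
  have hi : IntegrableOn (fun x : Fin n → ℝ => x) K :=
    (continuous_id.continuousOn).integrableOn_compact hK.cpt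
  have h := Convex.set_average_mem hK.conv hK.cpt.isClosed (hK.vol_ne (μ := volume))
    (hK.vol_ne_top (μ := volume)) (ae_restrict_mem hK.meas) hi
  have e : cen K = ⨍ x in K, x := by
    ext i
    rw [setAverage_eq]
    unfold cen
    simp only [Pi.smul_apply, smul_eq_mul, Measure.real]
    rw [eval_integral fun i => hi.eval i]
    ring
  rw [e]
  exact h

/-- the infimum of `M_p(D - x)` over `x ∈ D` -/
noncomputable def inff (p : ℝ) (D : Set (Fin n → ℝ)) : ℝ≥0∞ := ⨅ x ∈ D, Mv p (sh x D)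

lemma inff_le (hD : Body D) (p : ℝ) : inff p D ≤ Mv p (sh (cen D) D) :=
  iInf₂_le _ (cen_mem hD)

lemma le_inff (hn : 1 ≤ n) (hD : Body D) {p : ℝ} (hp : 0 < p) :
    ENNReal.ofReal ((Real.sqrt (2 * Real.pi / p) / (Real.sqrt (1 + p * (n + 2)) * LK D)) ^ n) ≤
      inff p D := by
  refine le_iInf₂ fun x _ => ?_
  have h := lowL hn (body_sh hD x) hp
  rwa [LK_sh hD] at h

lemma inff_ne_top (hn : 1 ≤ n) (hD : Body D) {p : ℝ} (hp : 0 < p)
    (hpn : p * (n : ℝ) ^ 2 ≤ n + 2) : inff p D ≠ ⊤ :=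
  ((inff_le hD p).trans_lt ((upL hn hD hp hpn).trans_lt ENNReal.ofReal_lt_top)).ne

lemma inff_pos (hn : 1 ≤ n) (hD : Body D) {p : ℝ} (hp : 0 < p) : 0 < inff p D := by
  have hpi := Real.pi_pos
  have hL := LK_pos hD
  refine lt_of_lt_of_le ?_ (le_inff hn hD hp)
  rw [ENNReal.ofReal_pos]
  have h1 : 0 < Real.sqrt (1 + p * (n + 2)) := Real.sqrt_pos.2 (by positivity)
  positivity

/-- comparison -/
theorem part_cmp (hn : 1 ≤ n) (hD : Body D) (hK : Body K) {p : ℝ} (hp : 0 < p)
    (hpn : p * (n : ℝ) ^ 2 ≤ n + 2) :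
    inff p D ≤ ENNReal.ofReal ((rho n p * LK K / LK D) ^ n) * Mv p K :=
  (inff_le hD p).trans (cmp2 hn hD hK hp hpn)

/-- strict inequality -/
theorem part_lt (hn : 1 ≤ n) (hD : Body D) (hK : Body K) {p : ℝ} (hp : 0 < p)
    (hpn : p * (n : ℝ) ^ 2 ≤ n + 2) (h : rho n p * LK K < LK D) :
    inff p D < Mv p K :=
  (inff_le hD p).trans_lt (lt2 hn hD hK hp hpn h)

/-- an inequality at the centroid bounds the isotropic constant -/
theorem part_conv (hn : 1 ≤ n) (hD : Body D) (hK : Body K) {p : ℝ} (hp : 0 < p)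
    (hpn : p * (n : ℝ) ^ 2 ≤ n + 2) {c : ℝ} (hc : 0 ≤ c)
    (h : ENNReal.ofReal (c ^ n) * inff p D ≤ Mv p (sh (cen K) K)) :
    c * LK K ≤ rho n p * LK D := by
  have hpi := Real.pi_pos
  have hL := LK_pos hK
  have hL' := LK_pos hD
  have h1 : ENNReal.ofReal (c ^ n) * ENNReal.ofReal
      ((Real.sqrt (2 * Real.pi / p) / (Real.sqrt (1 + p * (n + 2)) * LK D)) ^ n) ≤
      ENNReal.ofReal ((Real.sqrt (2 * Real.pi / p) *
        Real.exp (5 / 8 * Real.sqrt (p * (n + 2))) / LK K) ^ n) :=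
    (mul_le_mul_right (le_inff hn hD hp) _).trans (h.trans (upL hn hK hp hpn))
  have hs : 0 < Real.sqrt (2 * Real.pi / p) := Real.sqrt_pos.2 (by positivity)
  have hq : 0 < Real.sqrt (1 + p * (n + 2)) := Real.sqrt_pos.2 (by positivity)
  rw [← ENNReal.ofReal_mul (by positivity), ← mul_pow,
    ENNReal.ofReal_le_ofReal_iff (by positivity),
    pow_le_pow_iff_left₀ (by positivity) (by positivity) (by omega)] at h1
  rw [← mul_div_assoc, div_le_div_iff₀ (by positivity) hL] at h1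
  have h2 : Real.sqrt (2 * Real.pi / p) * (c * LK K) ≤
      Real.sqrt (2 * Real.pi / p) * (rho n p * LK D) := by
    unfold rho
    calc Real.sqrt (2 * Real.pi / p) * (c * LK K) = c * Real.sqrt (2 * Real.pi / p) * LK K := by
          ring
      _ ≤ _ := h1
      _ = _ := by ring
  exact le_of_mul_le_mul_left h2 hs

/-! ## the limit -/

/-- the infimum over all translations -/
noncomputable def infall (p : ℝ) (K : Set (Fin n → ℝ)) : ℝ≥0∞ := ⨅ z, Mv p (sh z K)

lemma small_ev (n : ℕ) : ∀ᶠ p : ℝ in 𝓝[>] 0, p * (n : ℝ) ^ 2 ≤ n + 2 := by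
  have h : Tendsto (fun p : ℝ => p * (n : ℝ) ^ 2) (𝓝[>] 0) (𝓝 0) := by
    have h1 : Tendsto (fun p : ℝ => p * (n : ℝ) ^ 2) (𝓝 0) (𝓝 (0 * (n : ℝ) ^ 2)) :=
      Continuous.tendsto (by fun_prop) 0
    rw [zero_mul] at h1
    exact h1.mono_left nhdsWithin_le_nhds
  have h2 : (0 : ℝ) < n + 2 := by positivity
  filter_upwards [h.eventually_lt_const h2] with p hp
  exact hp.le

/-- **the limit `p → 0`** -/
theorem part_lim (hn : 1 ≤ n) (hK : Body K) :
    Tendsto (fun p : ℝ => ENNReal.ofReal (Real.sqrt (p / (2 * Real.pi)) ^ n) * infall p K)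
      (𝓝[>] 0) (𝓝 (ENNReal.ofReal (1 / LK K ^ n))) := by
  have hpi := Real.pi_pos
  have hL := LK_pos hK
  have hsq : ∀ p : ℝ, 0 < p → Real.sqrt (p / (2 * Real.pi)) * Real.sqrt (2 * Real.pi / p) = 1 := by
    intro p hp
    rw [← Real.sqrt_mul (by positivity)]
    have : p / (2 * Real.pi) * (2 * Real.pi / p) = 1 := by field_simp
    rw [this, Real.sqrt_one]
  -- lower bound
  have hlow : ∀ᶠ p : ℝ in 𝓝[>] 0, ENNReal.ofReal ((1 / (Real.sqrt (1 + p * (n + 2)) * LK K)) ^ n) ≤
      ENNReal.ofReal (Real.sqrt (p / (2 * Real.pi)) ^ n) * infall p K := by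
    filter_upwards [self_mem_nhdsWithin] with p hp
    have hp0 : (0 : ℝ) < p := hp
    have h1 : ENNReal.ofReal ((Real.sqrt (2 * Real.pi / p) /
        (Real.sqrt (1 + p * (n + 2)) * LK K)) ^ n) ≤ infall p K := by
      refine le_iInf fun z => ?_
      have h := lowL hn (body_sh hK z) hp0
      rwa [LK_sh hK] at h
    refine le_trans (le_of_eq ?_) (mul_le_mul_right h1 _)
    rw [← ENNReal.ofReal_mul (by positivity), ← mul_pow]
    congr 2
    rw [← mul_div_assoc, hsq p hp0]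
  have hup : ∀ᶠ p : ℝ in 𝓝[>] 0, ENNReal.ofReal (Real.sqrt (p / (2 * Real.pi)) ^ n) * infall p K ≤
      ENNReal.ofReal ((Real.exp (5 / 8 * Real.sqrt (p * (n + 2))) / LK K) ^ n) := by
    filter_upwards [self_mem_nhdsWithin, small_ev n] with p hp hpn
    have hp0 : (0 : ℝ) < p := hp
    have h1 : infall p K ≤ _ := (iInf_le _ (cen K)).trans (upL hn hK hp0 hpn)
    refine (mul_le_mul_right h1 _).trans (le_of_eq ?_)
    rw [← ENNReal.ofReal_mul (by positivity), ← mul_pow]
    congr 2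
    rw [← mul_div_assoc, ← mul_assoc, hsq p hp0, one_mul]
  refine tendsto_of_tendsto_of_tendsto_of_le_of_le' ?_ ?_ hlow hup
  · apply ENNReal.tendsto_ofReal
    have hc : Tendsto (fun p : ℝ => Real.sqrt (1 + p * (n + 2)) * LK K) (𝓝 0)
        (𝓝 (Real.sqrt (1 + 0 * (n + 2)) * LK K)) := Continuous.tendsto (by fun_prop) 0
    rw [zero_mul, add_zero, Real.sqrt_one, one_mul] at hc
    have h := ((tendsto_const_nhds (x := (1 : ℝ))).div hc hL.ne').pow n
    have e : (1 / LK K) ^ n = 1 / LK K ^ n := by rw [div_pow, one_pow]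
    rw [e] at h
    exact h.mono_left nhdsWithin_le_nhds
  · apply ENNReal.tendsto_ofReal
    have hc : Continuous fun p : ℝ =>
        (Real.exp (5 / 8 * Real.sqrt (p * (n + 2))) / LK K) ^ n := by fun_prop
    have h := hc.tendsto 0
    simp only [zero_mul, Real.sqrt_zero, mul_zero, Real.exp_zero] at h
    have e : (1 / LK K) ^ n = 1 / LK K ^ n := by rw [div_pow, one_pow]
    rw [e] at h
    exact h.mono_left nhdsWithin_le_nhds

/-! ## the equivalence -/

lemma rho_ev (n : ℕ) {a : ℝ} (ha : 1 < a) : ∃ p₀ : ℝ, 0 < p₀ ∧ ∀ p : ℝ, 0 < p → p < p₀ →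
    rho n p < a ∧ p * (n : ℝ) ^ 2 ≤ n + 2 := by
  have h := ((rho_lim n).eventually_lt_const ha).and (small_ev n)
  rw [eventually_nhdsWithin_iff, Metric.eventually_nhds_iff] at h
  obtain ⟨p₀, hp₀, h⟩ := h
  refine ⟨p₀, hp₀, fun p hp hpp => ?_⟩
  exact h (by rw [Real.dist_eq, sub_zero, abs_of_pos hp]; exact hpp) hp

/-- **the equivalence** -/
theorem part_eqv (hn : 1 ≤ n) (hD : Body D) {c : ℝ} (hc : 0 < c) :
    (∀ K : Set (Fin n → ℝ), Body K → c * LK K ≤ LK D) ↔
    ∀ ε : ℝ, 0 < ε → ε < 1 → ∃ p₀ : ℝ, 0 < p₀ ∧ ∀ p : ℝ, 0 < p → p < p₀ →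
      ∀ K : Set (Fin n → ℝ), Body K →
        ENNReal.ofReal ((c * (1 - ε)) ^ n) * inff p D ≤ Mv p K := by
  have hL' := LK_pos hD
  constructor
  · intro h ε hε hε1
    have h1ε : 0 < 1 - ε := by linarith
    obtain ⟨p₀, hp₀, h0⟩ := rho_ev n (a := 1 / (1 - ε)) (by rw [lt_div_iff₀ h1ε]; linarith)
    refine ⟨p₀, hp₀, fun p hp hpp K hK => ?_⟩
    obtain ⟨h1, h2⟩ := h0 p hp hpp
    have hL := LK_pos hK
    have hr := rho_pos (n := n) hp
    calc ENNReal.ofReal ((c * (1 - ε)) ^ n) * inff p D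
        ≤ ENNReal.ofReal ((c * (1 - ε)) ^ n) *
          (ENNReal.ofReal ((rho n p * LK K / LK D) ^ n) * Mv p K) := by
          gcongr
          exact part_cmp hn hD hK hp h2
      _ = ENNReal.ofReal ((c * (1 - ε) * (rho n p * LK K / LK D)) ^ n) * Mv p K := by
          rw [← mul_assoc, ← ENNReal.ofReal_mul (by positivity), ← mul_pow]
      _ ≤ 1 * Mv p K := by
          gcongr
          rw [ENNReal.ofReal_le_one]
          apply pow_le_one₀ (by positivity)
          have h3 := h K hK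
          have h4 : rho n p * (1 - ε) ≤ 1 := by
            rw [lt_div_iff₀ h1ε] at h1
            exact h1.le
          calc c * (1 - ε) * (rho n p * LK K / LK D) =
              (rho n p * (1 - ε)) * (c * LK K / LK D) := by ring
            _ ≤ 1 * 1 := by
                apply mul_le_mul h4 _ (by positivity) zero_le_one
                rw [div_le_one hL']
                exact h3
            _ = 1 := by ring
      _ = Mv p K := one_mul _
  · intro h K hK
    have hL := LK_pos hK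
    have key : ∀ ε : ℝ, 0 < ε → ε < 1 → c * (1 - ε) * LK K ≤ LK D := by
      intro ε hε hε1
      obtain ⟨p₀, hp₀, h0⟩ := h ε hε hε1
      have h1ε : 0 < 1 - ε := by linarith
      have h1 : ∀ᶠ p : ℝ in 𝓝[>] 0, c * (1 - ε) * LK K ≤ rho n p * LK D := by
        have h2 : ∀ᶠ p : ℝ in 𝓝[>] 0, p < p₀ := by
          apply eventually_nhdsWithin_of_eventually_nhds
          exact eventually_lt_nhds hp₀
        filter_upwards [self_mem_nhdsWithin, small_ev n, h2] with p hp hpn hpp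
        exact part_conv hn hD hK hp hpn (by positivity) (h0 p hp hpp _ (body_sh hK _))
      have h2 : Tendsto (fun p : ℝ => rho n p * LK D) (𝓝[>] 0) (𝓝 (1 * LK D)) :=
        (rho_lim n).mul_const _
      rw [one_mul] at h2
      exact ge_of_tendsto h2 h1
    have h3 : Tendsto (fun ε : ℝ => c * (1 - ε) * LK K) (𝓝[>] 0) (𝓝 (c * (1 - 0) * LK K)) :=
      (Continuous.tendsto (by fun_prop) 0).mono_left nhdsWithin_le_nhds
    rw [sub_zero, mul_one] at h3
    refine le_of_tendsto h3 ?_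
    have h4 : ∀ᶠ ε : ℝ in 𝓝[>] 0, ε < 1 := by
      apply eventually_nhdsWithin_of_eventually_nhds
      exact eventually_lt_nhds one_pos
    filter_upwards [self_mem_nhdsWithin, h4] with ε hε hε1
    exact key ε hε hε1

end Pool.Agent.N563.SE
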